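import Pool.Agent.MP_187b32_an.Coll.Geom

/-!
Archimedes' theorem on the sphere and its consequences.
-/

open MeasureTheory Real Set
open scoped ENNReal RealInnerProductSpace

noncomputable section

namespace Pool.Agent.MP_187b32_an.Coll

lemma lintegral_sq_Ioo : ∫⁻ r in Ioo (0 : ℝ) 1, ENNReal.ofReal (r ^ 2) = ENNReal.ofReal (1 / 3) := by
  rw [restrict_Ioo_eq_restrict_Ioc, ← ofReal_integral_eq_lintegral_ofReal
    (intervalIntegral.intervalIntegrable_pow 2).1 (ae_of_all _ fun x => by positivity),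
    ← intervalIntegral.integral_of_le zero_le_one]
  congr 1
  rw [integral_pow]; norm_num

lemma lintegral_sin_cos (φ : ℝ → ℝ≥0∞) :
    ∫⁻ t in Ioo (-π) π, ENNReal.ofReal (Real.sin t) * φ (Real.cos t)
      = ∫⁻ t in Ioo (-1 : ℝ) 1, φ t := by
  have h1 : Real.cos '' Ioo 0 π = Ioo (-1 : ℝ) 1 := by
    ext x
    constructor
    · rintro ⟨t, ⟨h0, h1⟩, rfl⟩
      constructor
      · rw [← Real.cos_pi]; exact Real.cos_lt_cos_of_nonneg_of_le_pi h0.le le_rfl h1
      · rw [← Real.cos_zero]; exact Real.cos_lt_cos_of_nonneg_of_le_pi le_rfl h1.le h0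
    · rintro ⟨h0, h1⟩
      exact ⟨Real.arccos x, ⟨Real.arccos_pos.2 h1, Real.arccos_lt_pi.2 h0⟩,
        Real.cos_arccos h0.le h1.le⟩
  rw [← h1, lintegral_image_eq_lintegral_abs_deriv_mul measurableSet_Ioo
    (f' := fun t => -Real.sin t) (fun t _ => (Real.hasDerivAt_cos t).hasDerivWithinAt)
    (Real.injOn_cos.mono Ioo_subset_Icc_self),
    ← lintegral_indicator measurableSet_Ioo, ← lintegral_indicator measurableSet_Ioo]
  refine lintegral_congr fun t => ?_
  by_cases h : t ∈ Ioo 0 π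
  · rw [indicator_of_mem h, indicator_of_mem (show t ∈ Ioo (-π) π from
      ⟨by linarith [h.1, Real.pi_pos], h.2⟩), abs_neg,
      abs_of_nonneg (Real.sin_nonneg_of_nonneg_of_le_pi h.1.le h.2.le)]
  · rw [indicator_of_notMem h]
    by_cases h' : t ∈ Ioo (-π) π
    · rw [indicator_of_mem h', ENNReal.ofReal_of_nonpos, zero_mul]
      have : t ≤ 0 := by
        by_contra h0
        exact h ⟨not_le.1 h0, h'.2⟩
      exact Real.sin_nonpos_of_nonpos_of_neg_pi_le this h'.1.le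
    · rw [indicator_of_notMem h']

/-- Archimedes' theorem -/
theorem archimedes (e : E) (he : ‖e‖ = 1) (φ : ℝ → ℝ≥0∞) (hφ : Measurable φ) :
    ∫⁻ o, φ ⟪e, (o : E)⟫ ∂sph = ENNReal.ofReal (2 * π) * ∫⁻ t in Ioo (-1 : ℝ) 1, φ t := by
  obtain ⟨ι, h0, -, hmp⟩ := exists_slice e he
  let G : ℝ × ℝ → ℝ≥0∞ := fun p =>
    (Iio (1 : ℝ)).indicator (fun _ => φ (p.1 / √(p.1 ^ 2 + p.2 ^ 2))) (p.1 ^ 2 + p.2 ^ 2)
  have hG : Measurable G := by
    have : G = {p : ℝ × ℝ | p.1 ^ 2 + p.2 ^ 2 < 1}.indicator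
        (fun p => φ (p.1 / √(p.1 ^ 2 + p.2 ^ 2))) := by
      funext p; simp [G, indicator]
    rw [this]
    exact (hφ.comp (by fun_prop)).indicator (measurableSet_lt (by fun_prop) (by fun_prop))
  have hm : Measurable fun z : E => φ ⟪e, ‖z‖⁻¹ • z⟫ := by apply hφ.comp; fun_prop
  rw [lintegral_sph_eq_ball (fun x => φ ⟪e, x⟫) (by apply hφ.comp; fun_prop),
    ← lintegral_indicator measurableSet_ball,
    lintegral_slice hmp _ (hm.indicator measurableSet_ball)]
  have h1 : ∀ (r : ℝ) (y : E2), (Metric.ball (0 : E) 1).indicator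
      (fun z : E => φ ⟪e, ‖z‖⁻¹ • z⟫) (r • e + ι y) = G (r, ‖y‖) := by
    intro r y
    have hn := norm_sq_slice he h0 r y
    have hn' : ‖r • e + ι y‖ = √(r ^ 2 + ‖y‖ ^ 2) := by rw [← hn, Real.sqrt_sq (norm_nonneg _)]
    by_cases h : r ^ 2 + ‖y‖ ^ 2 < 1
    · rw [indicator_of_mem, inner_smul_right, inner_slice he h0, hn']
      · simp only [G]
        rw [indicator_of_mem (show r ^ 2 + ‖y‖ ^ 2 ∈ Iio (1 : ℝ) from h), div_eq_inv_mul]
      · rw [mem_ball_zero_iff, hn', Real.sqrt_lt' one_pos]; simpa using h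
    · rw [indicator_of_notMem]
      · simp only [G]
        rw [indicator_of_notMem (show r ^ 2 + ‖y‖ ^ 2 ∉ Iio (1 : ℝ) from h)]
      · rw [mem_ball_zero_iff, hn', Real.sqrt_lt' one_pos]; simpa using h
  simp only [h1]
  have h2 : ∀ r : ℝ, ∫⁻ y : E2, G (r, ‖y‖) =
      ENNReal.ofReal (2 * π) * ∫⁻ s : ℝ, ENNReal.ofReal s * G (r, s) := by
    intro r
    rw [lintegral_radial2 (fun s => G (r, s)) (hG.comp (by fun_prop)),
      ← lintegral_indicator measurableSet_Ioi]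
    congr 1
    refine lintegral_congr fun s => ?_
    by_cases hs : 0 < s
    · rw [indicator_of_mem (show s ∈ Ioi (0 : ℝ) from hs)]
    · rw [indicator_of_notMem (show s ∉ Ioi (0 : ℝ) from hs),
        ENNReal.ofReal_of_nonpos (not_lt.1 hs), zero_mul]
  have hG2 : Measurable fun p : ℝ × ℝ => ENNReal.ofReal p.2 * G p :=
    Measurable.mul (by fun_prop) hG
  simp only [h2]
  rw [lintegral_const_mul _ hG2.lintegral_prod_right', ← lintegral_prod _ hG2.aemeasurable,
    ← Measure.volume_eq_prod, ← lintegral_comp_polarCoord_symm, polarCoord_target,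
    mul_left_comm]
  congr 1
  have h3 : ∀ p ∈ Ioi (0 : ℝ) ×ˢ Ioo (-π) π,
      ENNReal.ofReal p.1 • (ENNReal.ofReal (polarCoord.symm p).2 * G (polarCoord.symm p)) =
      (Iio (1 : ℝ)).indicator (fun r => ENNReal.ofReal (r ^ 2)) p.1 *
        (ENNReal.ofReal (Real.sin p.2) * φ (Real.cos p.2)) := by
    rintro ⟨R, t⟩ ⟨hR, -⟩
    have hR' : 0 < R := hR
    have hs : (R * Real.cos t) ^ 2 + (R * Real.sin t) ^ 2 = R ^ 2 := by
      linear_combination R ^ 2 * Real.cos_sq_add_sin_sq t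
    simp only [polarCoord_symm_apply, G, hs, smul_eq_mul, Real.sqrt_sq hR'.le]
    by_cases h : R < 1
    · rw [indicator_of_mem (show R ^ 2 ∈ Iio (1 : ℝ) from by
        simp only [mem_Iio]; nlinarith), indicator_of_mem (show R ∈ Iio (1 : ℝ) from h),
        mul_div_cancel_left₀ _ hR'.ne', ENNReal.ofReal_mul hR'.le, pow_two,
        ENNReal.ofReal_mul hR'.le]
      ring
    · rw [indicator_of_notMem (show R ^ 2 ∉ Iio (1 : ℝ) from by
        simp only [mem_Iio]; nlinarith), indicator_of_notMem (show R ∉ Iio (1 : ℝ) from h)]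
      simp
  rw [setLIntegral_congr_fun (measurableSet_Ioi.prod measurableSet_Ioo) h3,
    Measure.volume_eq_prod, ← Measure.prod_restrict, lintegral_prod_mul
      (g := fun t => ENNReal.ofReal (Real.sin t) * φ (Real.cos t))
      (Measurable.indicator (by fun_prop) measurableSet_Iio).aemeasurable
      (Measurable.mul (by fun_prop) (hφ.comp (by fun_prop))).aemeasurable,
    lintegral_sin_cos, lintegral_indicator measurableSet_Iio,
    Measure.restrict_restrict measurableSet_Iio, Iio_inter_Ioi, lintegral_sq_Ioo, ← mul_assoc]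
  have : (3 : ℝ≥0∞) * ENNReal.ofReal (1 / 3) = 1 := by
    rw [show (3 : ℝ≥0∞) = ENNReal.ofReal 3 by simp, ← ENNReal.ofReal_mul (by norm_num)]; simp
  rw [this, one_mul]

/-- Archimedes' theorem for an arbitrary nonzero vector -/
theorem archimedes_vec (u : E) (hu : u ≠ 0) (φ : ℝ → ℝ≥0∞) (hφ : Measurable φ) :
    ∫⁻ o, φ ⟪u, (o : E)⟫ ∂sph
      = ENNReal.ofReal (2 * π / ‖u‖) * ∫⁻ t in Ioo (-‖u‖) ‖u‖, φ t := by
  have hn : 0 < ‖u‖ := norm_pos_iff.2 hu
  have h := archimedes (‖u‖⁻¹ • u) (by simp [norm_smul, hn.ne']) (fun t => φ (‖u‖ * t))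
    (hφ.comp (by fun_prop))
  simp only [inner_smul_left, conj_trivial, mul_inv_cancel_left₀ hn.ne'] at h
  rw [h]
  have h1 : (fun t => ‖u‖ * t) '' Ioo (-1 : ℝ) 1 = Ioo (-‖u‖) ‖u‖ := by
    rw [image_mul_left_Ioo hn]; simp
  rw [← h1, lintegral_image_eq_lintegral_abs_deriv_mul measurableSet_Ioo
    (f' := fun _ => ‖u‖) (fun t _ => by
      simpa using ((hasDerivAt_id t).const_mul ‖u‖).hasDerivWithinAt)
    (fun a _ b _ hab => mul_left_cancel₀ hn.ne' hab),
    lintegral_const_mul (f := fun t => φ (‖u‖ * t)) _ (hφ.comp (by fun_prop)), ← mul_assoc,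
    abs_of_pos hn,
    ← ENNReal.ofReal_mul (by positivity), div_mul_cancel₀ _ hn.ne']

/-- upper bound with the factor 1/(1+|u|) for a bounded integrable profile -/
theorem lintegral_sph_inner_le (φ : ℝ → ℝ≥0∞) (hφ : Measurable φ) (A : ℝ≥0∞)
    (h1 : ∀ t, φ t ≤ A) (h2 : ∫⁻ t, φ t ≤ A) (u : E) :
    ∫⁻ o, φ ⟪u, (o : E)⟫ ∂sph ≤ ENNReal.ofReal (8 * π / (1 + ‖u‖)) * A := by
  by_cases hu : ‖u‖ ≤ 1
  · calc ∫⁻ o, φ ⟪u, (o : E)⟫ ∂sph ≤ ∫⁻ _, A ∂sph := lintegral_mono fun o => h1 _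
      _ = ENNReal.ofReal (4 * π) * A := by rw [lintegral_const, sph_univ, mul_comm]
      _ ≤ _ := by
        gcongr
        rw [le_div_iff₀ (by positivity)]
        nlinarith [Real.pi_pos]
  · have hu1 : 1 < ‖u‖ := not_le.1 hu
    rw [archimedes_vec u (norm_pos_iff.1 (by linarith)) φ hφ]
    refine mul_le_mul' (ENNReal.ofReal_le_ofReal ?_) ((setLIntegral_le_lintegral _ _).trans h2)
    rw [div_le_div_iff₀ (by linarith) (by positivity)]
    nlinarith [Real.pi_pos]

end Pool.Agent.MP_187b32_an.Coll
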