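import Pool.Agent.MP_187b32_an.Coll.Bound

/-!
C2: the two-particle increment of g h_* is controlled by the anisotropic norm of g.
-/

open MeasureTheory Real Set
open scoped ENNReal RealInnerProductSpace

noncomputable section

namespace Pool.Agent.MP_187b32_an.Coll

/-- polynomial weight -/
def b0 (w : E) : ℝ := ((1 + ‖w‖) ^ 20)⁻¹

lemma b0_pos (w : E) : 0 < b0 w := by unfold b0; positivity

@[fun_prop] lemma measurable_b0 : Measurable b0 := by unfold b0; fun_prop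

@[fun_prop] lemma Measurable.jk {α : Type*} [MeasurableSpace α] {a c : α → E}
    (ha : Measurable a) (hc : Measurable c) : Measurable fun x => jk (a x) (c x) := by
  unfold Coll.jk
  exact Measurable.mul (Measurable.pow_const (by fun_prop) _) (Measurable.pow_const (by fun_prop) _)

/-- weight term -/
def T1 (g : E → ℝ) (p : E × E × S2) : ℝ :=
  ker3 p * min 1 |⟪p.1 - p.2.1, (p.2.2 : E)⟫| * |b0 p.2.1| * g p.1 ^ 2

/-- jump term -/
def T2 (g : E → ℝ) (p : E × E × S2) : ℝ :=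
  if |⟪p.1 - p.2.1, (p.2.2 : E)⟫| < 1 then
    ker3 p * (g (pv p.1 p.2.1 p.2.2) - g p.1) ^ 2 * b0 p.2.1 else 0

lemma T1_nonneg (g : E → ℝ) (p : E × E × S2) : 0 ≤ T1 g p := by
  have := ker3_nonneg p
  unfold T1; positivity

lemma T2_nonneg (g : E → ℝ) (p : E × E × S2) : 0 ≤ T2 g p := by
  have := ker3_nonneg p
  have := b0_pos p.2.1
  unfold T2; positivity

lemma measurable_T1 {g : E → ℝ} (hg : Measurable g) : Measurable (T1 g) := by
  unfold T1; fun_prop

lemma measurable_T2 {g : E → ℝ} (hg : Measurable g) : Measurable (T2 g) := by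
  unfold T2
  exact Measurable.ite (measurableSet_lt (by fun_prop) (by fun_prop)) (by fun_prop) (by fun_prop)

lemma sq_le_b0 {x K : ℝ} {w : E} (h : (1 + ‖w‖) ^ 10 * |x| ≤ K) : x ^ 2 ≤ K ^ 2 * b0 w := by
  rw [b0, ← div_eq_mul_inv, le_div_iff₀ (wt_pos w 20)]
  calc x ^ 2 * (1 + ‖w‖) ^ 20 = ((1 + ‖w‖) ^ 10 * |x|) ^ 2 := by rw [mul_pow, sq_abs]; ring
    _ ≤ K ^ 2 := by gcongr

lemma inc_sq_le (g : E → ℝ) {h : E → ℝ} {K : ℝ} (H : Nice 10 K h) (p : E × E × S2) :
    ker3 p * Inc (fun v w => g v * h w) p ^ 2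
      ≤ 2 * K ^ 2 * (T1 g (coll p) + T1 g p + T2 g p) := by
  obtain ⟨v, w, o⟩ := p
  have hk := ker3_nonneg (v, w, o)
  have e1 : T1 g (coll (v, w, o)) = ker3 (v, w, o) * min 1 |⟪v - w, (o : E)⟫| * b0 (pw v w o) *
      g (pv v w o) ^ 2 := by
    rw [T1, ker3_coll]
    simp only [coll, inner_pv_sub_pw, abs_neg, abs_of_pos (b0_pos _)]
  have e2 : T1 g (v, w, o) = ker3 (v, w, o) * min 1 |⟪v - w, (o : E)⟫| * b0 w * g v ^ 2 := by
    simp only [T1, abs_of_pos (b0_pos _)]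
  have a1 := sq_le_b0 (H.1 w)
  have a2 := sq_le_b0 (H.1 (pw v w o))
  rw [e1, e2, T2]
  simp only [Inc]
  set k := ker3 (v, w, o)
  set r := |⟪v - w, (o : E)⟫| with hr
  have hb := b0_pos w
  have hb' := b0_pos (pw v w o)
  by_cases hr1 : r < 1
  · rw [if_pos hr1, min_eq_right hr1.le]
    have hr0 : 0 ≤ r := abs_nonneg _
    have e3 : ‖w - pw v w o‖ = r := by rw [norm_sub_rev]; exact norm_pw_sub v w o
    have a3 := sq_le_b0 (H.lip' (pw v w o) w (e3 ▸ hr1.le))
    rw [e3] at a3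
    have a4 : (h w - h (pw v w o)) ^ 2 ≤ K ^ 2 * (r * b0 (pw v w o)) := by
      refine a3.trans ?_
      rw [mul_pow, mul_assoc]
      gcongr
      nlinarith
    have a5 : (g (pv v w o) * h (pw v w o) - g v * h w) ^ 2 ≤
        2 * ((g (pv v w o) - g v) ^ 2 * h w ^ 2) +
          2 * (g (pv v w o) ^ 2 * (h w - h (pw v w o)) ^ 2) := by
      nlinarith [sq_nonneg ((g (pv v w o) - g v) * h w + g (pv v w o) * (h w - h (pw v w o)))]
    have a6 : (g (pv v w o) * h (pw v w o) - g v * h w) ^ 2 ≤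
        2 * ((g (pv v w o) - g v) ^ 2 * (K ^ 2 * b0 w)) +
          2 * (g (pv v w o) ^ 2 * (K ^ 2 * (r * b0 (pw v w o)))) := a5.trans (by gcongr)
    have a7 : 0 ≤ 2 * K ^ 2 * (k * r * b0 w * g v ^ 2) := by positivity
    nlinarith [mul_le_mul_of_nonneg_left a6 hk]
  · rw [if_neg hr1, min_eq_left (not_lt.1 hr1)]
    have a5 : (g (pv v w o) * h (pw v w o) - g v * h w) ^ 2 ≤
        2 * (g (pv v w o) ^ 2 * h (pw v w o) ^ 2) + 2 * (g v ^ 2 * h w ^ 2) := by
      nlinarith [sq_nonneg (g (pv v w o) * h (pw v w o) + g v * h w)]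
    have a6 : (g (pv v w o) * h (pw v w o) - g v * h w) ^ 2 ≤
        2 * (g (pv v w o) ^ 2 * (K ^ 2 * b0 (pw v w o))) + 2 * (g v ^ 2 * (K ^ 2 * b0 w)) :=
      a5.trans (by gcongr)
    nlinarith [mul_le_mul_of_nonneg_left a6 hk]

lemma lintegral_T1_le {g : E → ℝ} (hg : Measurable g) :
    ∫⁻ p, ENNReal.ofReal (T1 g p) ∂mu3 ≤ ENNReal.ofReal cW * NW g := by
  have hc := cW_pos
  rw [mu3, lintegral_prod _ (measurable_T1 hg).ennreal_ofReal.aemeasurable, NW,
    ← lintegral_const_mul _ (by fun_prop)]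
  refine lintegral_mono fun v => ?_
  have h1 : ∀ q : E × S2, ENNReal.ofReal (T1 g (v, q)) = ENNReal.ofReal
      (ker (v - q.1) q.2 * min 1 |⟪v - q.1, (q.2 : E)⟫| * |b0 q.1|) * ENNReal.ofReal (g v ^ 2) :=
    fun q => ENNReal.ofReal_mul' (sq_nonneg _)
  simp only [h1]
  rw [lintegral_mul_const _ (by fun_prop)]
  refine (mul_le_mul_left (lintegral_ker_min_le (Ka := 1) measurable_b0 (fun w => ?_) v) _).trans
    (le_of_eq ?_)
  · rw [abs_of_pos (b0_pos w), b0, ← div_eq_mul_inv, div_le_one (wt_pos w 20)]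
    gcongr
    · linarith [norm_nonneg w]
    · norm_num
  · rw [← ENNReal.ofReal_mul (by positivity), ← ENNReal.ofReal_mul hc.le]
    congr 1; ring

lemma carleman_weight (v : E) (o : S2) {ι : E2 →ₗᵢ[ℝ] E} (h0 : ∀ y, ⟪(o : E), ι y⟫ = 0)
    {y0 : E2} (hy0 : v = ⟪(o : E), v⟫ • (o : E) + ι y0) {r : ℝ} (hr : |r| < 1) (y : E2) :
    ‖r • (o : E) + ι y‖ ^ (19 / 2 : ℝ) * b0 (v - (r • (o : E) + ι y)) ≤
      16 * (1 + ‖v‖) ^ (19 / 2 : ℝ) * (1 + ⟪v, (o : E)⟫ ^ 2) ^ (-(7 / 4) : ℝ) *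
        ((1 + ‖y0 - y‖) ^ 6)⁻¹ := by
  set w := v - (r • (o : E) + ι y) with hw
  set t := ⟪v, (o : E)⟫ with ht
  have e1 : w = (t - r) • (o : E) + ι (y0 - y) := by
    rw [hw, ht, real_inner_comm]
    nth_rewrite 1 [hy0]
    rw [map_sub]; module
  have e2 := norm_sq_slice (norm_coe o) h0 (t - r) (y0 - y)
  rw [← e1] at e2
  have a1 : |t - r| ≤ ‖w‖ := abs_le_of_sq_le_sq' (by nlinarith [sq_nonneg ‖y0 - y‖]) (norm_nonneg _)
    |> abs_le.2
  have a2 : ‖y0 - y‖ ≤ ‖w‖ :=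
    (abs_le_of_sq_le_sq' (by nlinarith [sq_nonneg (t - r)]) (norm_nonneg _)).2
  have a3 : ‖r • (o : E) + ι y‖ ^ (19 / 2 : ℝ) ≤ (1 + ‖v‖) ^ (19 / 2 : ℝ) * (1 + ‖w‖) ^ 10 := by
    have : r • (o : E) + ι y = v - w := by rw [hw, sub_sub_cancel]
    rw [this]
    calc ‖v - w‖ ^ (19 / 2 : ℝ) ≤ ((1 + ‖v‖) * (1 + ‖w‖)) ^ (19 / 2 : ℝ) := by
          gcongr; linarith [wt_le_mul v w]
      _ = (1 + ‖v‖) ^ (19 / 2 : ℝ) * (1 + ‖w‖) ^ (19 / 2 : ℝ) :=
          Real.mul_rpow (by positivity) (by positivity)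
      _ ≤ _ := by
          gcongr
          rw [← Real.rpow_natCast]
          exact Real.rpow_le_rpow_of_exponent_le (by linarith [norm_nonneg w]) (by norm_num)
  have a4 : (1 + t ^ 2) ^ (7 / 4 : ℝ) ≤ 16 * (1 + ‖w‖) ^ 4 := by
    have b1 : (1 + t ^ 2) ^ (7 / 4 : ℝ) ≤ (1 + t ^ 2) ^ 2 := by
      rw [← Real.rpow_natCast (1 + t ^ 2) 2]
      exact Real.rpow_le_rpow_of_exponent_le (by linarith [sq_nonneg t]) (by norm_num)
    have b2 : 1 + |t| ≤ 2 * (1 + ‖w‖) := by
      have := abs_add_le (t - r) r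
      rw [sub_add_cancel] at this
      linarith [norm_nonneg w]
    have b3 : 1 + t ^ 2 ≤ (1 + |t|) ^ 2 := by nlinarith [sq_abs t, abs_nonneg t]
    calc _ ≤ _ := b1
      _ ≤ ((1 + |t|) ^ 2) ^ 2 := by gcongr
      _ ≤ ((2 * (1 + ‖w‖)) ^ 2) ^ 2 := by gcongr
      _ = _ := by ring
  have hp : 0 < (1 + t ^ 2) ^ (7 / 4 : ℝ) := by positivity
  have hw1 : 0 < 1 + ‖w‖ := by positivity
  rw [Real.rpow_neg (by positivity)]
  calc _ ≤ (1 + ‖v‖) ^ (19 / 2 : ℝ) * (1 + ‖w‖) ^ 10 * b0 w := by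
        have := b0_pos w
        gcongr
    _ = 16 * (1 + ‖v‖) ^ (19 / 2 : ℝ) * (16 * (1 + ‖w‖) ^ 4)⁻¹ * ((1 + ‖w‖) ^ 6)⁻¹ := by
        rw [b0]; field_simp
    _ ≤ _ := by gcongr

lemma jk_line (v : E) (o : S2) (r : ℝ) :
    r ^ 2 * jk v (-(r • (o : E))) = (1 + ‖v‖) ^ (19 / 2 : ℝ) *
      (1 + ⟪v, (o : E)⟫ ^ 2) ^ (-(7 / 4) : ℝ) * |r| ^ (-(3 / 2) : ℝ) := by
  rcases eq_or_ne r 0 with rfl | hr
  · simp
  have h1 : 0 < |r| := abs_pos.2 hr
  have h2 : ‖-(r • (o : E))‖ ^ 2 + ⟪v, -(r • (o : E))⟫ ^ 2 = |r| ^ 2 * (1 + ⟪v, (o : E)⟫ ^ 2) := by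
    rw [norm_neg, norm_smul, norm_coe, inner_neg_right, inner_smul_right, Real.norm_eq_abs,
      sq_abs, mul_one, sq_abs]; ring
  rw [jk, h2, Real.mul_rpow (by positivity) (by positivity), ← Real.rpow_natCast |r|,
    ← Real.rpow_mul h1.le, ← sq_abs r, ← Real.rpow_natCast |r|,
    show (-(3 / 2) : ℝ) = (2 : ℕ) + (2 : ℕ) * (-(7 / 4)) by norm_num, Real.rpow_add h1]
  ring

lemma exists_T2 : ∃ c : ℝ, 0 < c ∧ ∀ g : E → ℝ, Measurable g →
    ∫⁻ p, ENNReal.ofReal (T2 g p) ∂mu3 ≤ ENNReal.ofReal c * NJ g := by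
  set B := ∫⁻ y : E2, ENNReal.ofReal (((1 + ‖y‖) ^ 6)⁻¹) with hB
  have hB' : B = ENNReal.ofReal B.toReal :=
    (ENNReal.ofReal_toReal (wt_lintegral_lt_top volume 6 (by simp)).ne).symm
  refine ⟨64 * B.toReal + 1, by positivity, fun g hg => ?_⟩
  have hm := (measurable_T2 hg).ennreal_ofReal
  have hJ : Measurable fun q : E × E => (Metric.ball (0 : E) 1).indicator
      (fun z => ENNReal.ofReal (jk q.1 z * (g (q.1 + z) - g q.1) ^ 2)) q.2 := by
    have : (fun q : E × E => (Metric.ball (0 : E) 1).indicator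
      (fun z => ENNReal.ofReal (jk q.1 z * (g (q.1 + z) - g q.1) ^ 2)) q.2) =
      (Prod.snd ⁻¹' Metric.ball (0 : E) 1).indicator
        fun q : E × E => ENNReal.ofReal (jk q.1 q.2 * (g (q.1 + q.2) - g q.1) ^ 2) := by
      funext q; simp [indicator]
    rw [this]
    exact Measurable.indicator (by fun_prop) (measurable_snd measurableSet_ball)
  rw [mu3, lintegral_prod _ hm.aemeasurable, NJ]
  simp only [← lintegral_indicator measurableSet_ball]
  rw [← lintegral_const_mul _ hJ.lintegral_prod_right']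
  refine lintegral_mono fun v => ?_
  set F : E → ℝ≥0∞ := (Metric.ball (0 : E) 1).indicator
      (fun z => ENNReal.ofReal (jk v z * (g (v + z) - g v) ^ 2)) with hF
  have hFm : Measurable F := hJ.comp (f := fun z => (v, z)) (by fun_prop)
  have hFm' : Measurable fun z => F (-z) := hFm.comp measurable_neg
  have hm' : Measurable fun q : E × S2 => ENNReal.ofReal (T2 g (v, q)) := hm.comp (by fun_prop)
  rw [lintegral_mu2' _ hm']
  calc _ ≤ ∫⁻ o : S2, ENNReal.ofReal (32 * B.toReal) *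
        (∫⁻ r : ℝ, ENNReal.ofReal (r ^ 2) * F (-(r • (o : E)))) ∂sph := by
        refine lintegral_mono fun o => ?_
        obtain ⟨ι, h0, hs, hmp⟩ := exists_slice o (norm_coe o)
        obtain ⟨y0, hy0⟩ := hs v
        have hm4 : Measurable fun r : ℝ => ENNReal.ofReal (r ^ 2) * F (-(r • (o : E))) :=
          Measurable.mul (by fun_prop) (hFm'.comp (by fun_prop))
        rw [lintegral_carleman v o hmp (fun w => ENNReal.ofReal (T2 g (v, w, o)))
          (hm'.comp (f := fun w => (w, o)) (by fun_prop)), ← lintegral_const_mul _ hm4]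
        refine lintegral_mono fun r => ?_
        have e0 : ∀ y, ⟪v - (v - (r • (o : E) + ι y)), (o : E)⟫ = r := fun y => by
          rw [sub_sub_cancel, real_inner_comm, inner_slice (norm_coe o) h0]
        by_cases hr : |r| < 1
        · have e1 : ENNReal.ofReal (r ^ 2) * F (-(r • (o : E))) = ENNReal.ofReal
              ((1 + ‖v‖) ^ (19 / 2 : ℝ) * (1 + ⟪v, (o : E)⟫ ^ 2) ^ (-(7 / 4) : ℝ) *
                |r| ^ (-(3 / 2) : ℝ) * (g (v - r • (o : E)) - g v) ^ 2) := by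
            rw [hF, indicator_of_mem (by simpa [norm_smul] using hr),
              ← ENNReal.ofReal_mul (sq_nonneg r), ← mul_assoc, jk_line, sub_eq_add_neg v]
          rw [e1]
          set X := (1 + ‖v‖) ^ (19 / 2 : ℝ) * (1 + ⟪v, (o : E)⟫ ^ 2) ^ (-(7 / 4) : ℝ) *
                |r| ^ (-(3 / 2) : ℝ) * (g (v - r • (o : E)) - g v) ^ 2 with hX
          have hX0 : 0 ≤ X := by positivity
          calc _ ≤ ∫⁻ y : E2, ENNReal.ofReal (32 * X) * ENNReal.ofReal (((1 + ‖y0 - y‖) ^ 6)⁻¹) := by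
                refine lintegral_mono fun y => ?_
                rw [← ENNReal.ofReal_mul (by positivity)]
                refine ENNReal.ofReal_le_ofReal ?_
                simp only [T2, ker3, ker, pv_carleman v o h0, sub_sub_cancel]
                rw [real_inner_comm, inner_slice (norm_coe o) h0, if_pos hr]
                have h1 := carleman_weight v o h0 hy0 hr y
                calc _ = 2 * (‖r • (o : E) + ι y‖ ^ (19 / 2 : ℝ) * b0 (v - (r • (o : E) + ι y))) *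
                      (|r| ^ (-(3 / 2) : ℝ) * (g (v - r • (o : E)) - g v) ^ 2) := by ring
                  _ ≤ 2 * (16 * (1 + ‖v‖) ^ (19 / 2 : ℝ) * (1 + ⟪v, (o : E)⟫ ^ 2) ^ (-(7 / 4) : ℝ) *
                      ((1 + ‖y0 - y‖) ^ 6)⁻¹) *
                      (|r| ^ (-(3 / 2) : ℝ) * (g (v - r • (o : E)) - g v) ^ 2) := by gcongr
                  _ = _ := by rw [hX]; ring
            _ = _ := by
                rw [lintegral_const_mul _ (by fun_prop), lintegral_sub_left_eq_self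
                  (fun y : E2 => ENNReal.ofReal (((1 + ‖y‖) ^ 6)⁻¹)) y0, ← hB, hB',
                  ← ENNReal.ofReal_mul (by positivity), ← ENNReal.ofReal_mul (by positivity),
                  ENNReal.toReal_ofReal ENNReal.toReal_nonneg]
                congr 1; ring
        · simp only [T2, e0, if_neg hr]
          simp
    _ = ENNReal.ofReal (32 * B.toReal) * (2 * ∫⁻ z, F z) := by
        have hm3 : Measurable fun p : S2 × ℝ => ENNReal.ofReal (p.2 ^ 2) * F (-(p.2 • (p.1 : E))) :=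
          Measurable.mul (by fun_prop) (hFm'.comp (by fun_prop))
        rw [lintegral_const_mul _ hm3.lintegral_prod_right',
          lintegral_polar_line (fun z => F (-z)) hFm', lintegral_neg_eq_self]
    _ ≤ _ := by
        rw [← mul_assoc]
        gcongr
        rw [show (2 : ℝ≥0∞) = ENNReal.ofReal 2 by simp, ← ENNReal.ofReal_mul (by positivity)]
        exact ENNReal.ofReal_le_ofReal (by linarith)

theorem c2 : C2Stmt := by
  obtain ⟨c, hc, h2⟩ := exists_T2
  have hc' := cW_pos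
  refine ⟨2 * (2 * cW + c), by positivity, fun g h K hg H => ?_⟩
  have m1 := (measurable_T1 hg).ennreal_ofReal
  have m2 := (measurable_T2 hg).ennreal_ofReal
  have m3 : Measurable fun p => ENNReal.ofReal (T1 g (coll p)) := m1.comp measurable_coll
  calc _ ≤ ∫⁻ p, ENNReal.ofReal (2 * K ^ 2) * (ENNReal.ofReal (T1 g (coll p)) +
        ENNReal.ofReal (T1 g p) + ENNReal.ofReal (T2 g p)) ∂mu3 := by
        refine lintegral_mono fun p => ?_
        rw [← ENNReal.ofReal_add (T1_nonneg _ _) (T1_nonneg _ _), ← ENNReal.ofReal_add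
          (add_nonneg (T1_nonneg _ _) (T1_nonneg _ _)) (T2_nonneg _ _),
          ← ENNReal.ofReal_mul (by positivity)]
        exact ENNReal.ofReal_le_ofReal (inc_sq_le g H p)
    _ = ENNReal.ofReal (2 * K ^ 2) * ((∫⁻ p, ENNReal.ofReal (T1 g p) ∂mu3) +
        (∫⁻ p, ENNReal.ofReal (T1 g p) ∂mu3) + ∫⁻ p, ENNReal.ofReal (T2 g p) ∂mu3) := by
        have m4 : Measurable fun p => ENNReal.ofReal (T1 g (coll p)) +
          ENNReal.ofReal (T1 g p) + ENNReal.ofReal (T2 g p) := (m3.add m1).add m2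
        rw [lintegral_const_mul _ m4, lintegral_add_right _ m2,
          lintegral_add_right _ m1, lintegral_coll _ m1]
    _ ≤ ENNReal.ofReal (2 * K ^ 2) * (ENNReal.ofReal cW * NL g + ENNReal.ofReal cW * NL g +
        ENNReal.ofReal c * NL g) := by
        have a1 : ENNReal.ofReal cW * NW g ≤ ENNReal.ofReal cW * NL g := by
          gcongr; exact le_add_self
        have a2 : ENNReal.ofReal c * NJ g ≤ ENNReal.ofReal c * NL g := by
          gcongr; exact le_self_add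
        gcongr
        exacts [(lintegral_T1_le hg).trans a1, (lintegral_T1_le hg).trans a1, (h2 g hg).trans a2]
    _ = _ := by
        rw [← add_mul, ← add_mul, ← mul_assoc, ← ENNReal.ofReal_add hc'.le hc'.le,
          ← ENNReal.ofReal_add (by positivity) hc.le, ← ENNReal.ofReal_mul (by positivity)]
        congr 2; ring

end Pool.Agent.MP_187b32_an.Coll
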