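import Mathlib

/-!
Collision operator in the omega representation (module M2 of the Boltzmann project):
definitions and the statements shared by the seats.
-/

open MeasureTheory Real
open scoped ENNReal RealInnerProductSpace

noncomputable section

namespace Pool.Agent.MP_187b32_an.Coll

/-- velocity space -/
abbrev E := EuclideanSpace ℝ (Fin 3)

/-- the plane, used for slices orthogonal to a direction -/
abbrev E2 := EuclideanSpace ℝ (Fin 2)

/-- unit sphere -/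
abbrev S2 := Metric.sphere (0 : E) 1

/-- surface measure on the sphere (total mass 4 pi) -/
def sph : Measure S2 := (volume : Measure E).toSphere

instance : IsFiniteMeasure sph := by unfold sph; infer_instance

/-- measure in (v_*, omega) -/
def mu2 : Measure (E × S2) := (volume : Measure E).prod sph

/-- measure in (v, v_*, omega) -/
def mu3 : Measure (E × E × S2) := (volume : Measure E).prod mu2

instance : SFinite mu2 := by unfold mu2; infer_instance

instance : SFinite mu3 := by unfold mu3; infer_instance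

/-- unnormalised square root of the Maxwellian -/
def sM (v : E) : ℝ := Real.exp (-‖v‖ ^ 2 / 4)

/-- post-collisional velocity v' -/
def pv (v w o : E) : E := v - ⟪v - w, o⟫ • o

/-- post-collisional velocity v_*' -/
def pw (v w o : E) : E := w + ⟪v - w, o⟫ • o

/-- omega kernel of B = r^8 |sin(theta/2)|^(-5/2) -/
def ker (u o : E) : ℝ := 2 * ‖u‖ ^ (19 / 2 : ℝ) * |⟪u, o⟫| ^ (-(3 / 2) : ℝ)

/-- integrand of the trilinear operator -/
def triI (a g h : E → ℝ) (v : E) (p : E × S2) : ℝ :=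
  ker (v - p.1) p.2 * a p.1 * (g (pw v p.1 p.2) * h (pv v p.1 p.2) - g p.1 * h v)

/-- trilinear operator with weight a at v_* -/
def Tri (a g h : E → ℝ) (v : E) : ℝ := ∫ p, triI a g h v p ∂mu2

/-- Gamma(g,h) = Q(sM g, sM h) over sM, first argument at v_* -/
def Gam (g h : E → ℝ) (v : E) : ℝ := Tri sM g h v

/-- symmetrised form Gamma(g,h) + Gamma(h,g) -/
def Gs (g h : E → ℝ) (v : E) : ℝ := Gam g h v + Gam h g v

/-- linearised operator -/
def Lop (g : E → ℝ) (v : E) : ℝ := -Gs sM g v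

/-- symmetric two-particle function g h_* + h g_* -/
def Sym (g h : E → ℝ) (v w : E) : ℝ := g v * h w + h v * g w

/-- collisional increment of a two-particle function -/
def Inc (F : E → E → ℝ) (p : E × E × S2) : ℝ :=
  F (pv p.1 p.2.1 p.2.2) (pw p.1 p.2.1 p.2.2) - F p.1 p.2.1

/-- kernel as a function of (v, v_*, omega) -/
def ker3 (p : E × E × S2) : ℝ := ker (p.1 - p.2.1) p.2.2

/-- four times the dissipation, as a lower integral -/
def DL (f : E → ℝ) : ℝ≥0∞ := ∫⁻ p, ENNReal.ofReal (ker3 p * Inc (Sym f sM) p ^ 2) ∂mu3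

/-- dissipation; equals the integral of (Lop f) f for nice f -/
def Dis (f : E → ℝ) : ℝ := (DL f).toReal / 4

/-- squared L2 norm as a lower integral -/
def L2L (f : E → ℝ) : ℝ≥0∞ := ∫⁻ v, ENNReal.ofReal (f v ^ 2)

/-- anisotropic jump kernel -/
def jk (v z : E) : ℝ := (1 + ‖v‖) ^ (19 / 2 : ℝ) * (‖z‖ ^ 2 + ⟪v, z⟫ ^ 2) ^ (-(7 / 4) : ℝ)

/-- jump part of the anisotropic norm -/
def NJ (g : E → ℝ) : ℝ≥0∞ :=
  ∫⁻ v, ∫⁻ z in Metric.ball (0 : E) 1, ENNReal.ofReal (jk v z * (g (v + z) - g v) ^ 2)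

/-- weight part of the anisotropic norm -/
def NW (g : E → ℝ) : ℝ≥0∞ := ∫⁻ v, ENNReal.ofReal ((1 + ‖v‖) ^ (17 / 2 : ℝ) * g v ^ 2)

/-- squared anisotropic norm -/
def NL (g : E → ℝ) : ℝ≥0∞ := NJ g + NW g

/-- weighted bound and weighted local Lipschitz bound -/
def Nice (p : ℕ) (K : ℝ) (h : E → ℝ) : Prop :=
  (∀ v, (1 + ‖v‖) ^ p * |h v| ≤ K) ∧
    ∀ v z, ‖z‖ ≤ 1 → (1 + ‖v‖) ^ p * |h (v + z) - h v| ≤ K * ‖z‖

/-- C2 (helper39) -/
def C2Stmt : Prop :=
  ∃ C : ℝ, 0 < C ∧ ∀ (g h : E → ℝ) (K : ℝ), Measurable g → Nice 10 K h →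
    ∫⁻ p, ENNReal.ofReal (ker3 p * Inc (fun v w => g v * h w) p ^ 2) ∂mu3
      ≤ ENNReal.ofReal (C * K ^ 2) * NL g

/-- C3 (helper89) -/
def C3Stmt : Prop :=
  ∃ C : ℝ, 0 < C ∧ ∀ (g : E → ℝ) (K : ℝ), Nice 10 K g →
    NL g ≤ ENNReal.ofReal C * (DL g + L2L g)

/-- collision invariants: g is orthogonal to sM, V_i sM, |V|^2 sM -/
def Micro (g : E → ℝ) : Prop :=
  ∫ v, g v * sM v = 0 ∧ (∀ i, ∫ v, g v * (v i * sM v) = 0) ∧ ∫ v, g v * (‖v‖ ^ 2 * sM v) = 0

/-- C4 (helper84) -/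
def C4Stmt : Prop :=
  ∃ lam : ℝ, 0 < lam ∧ ∀ (g : E → ℝ) (K : ℝ), Nice 10 K g → Micro g →
    ENNReal.ofReal lam * L2L g ≤ DL g

/-- trilinear estimate used by M3, M4, M6 (from C1, C2, C3) -/
def TriStmt : Prop :=
  ∃ C : ℝ, 0 < C ∧ ∀ (g h f : E → ℝ) (Kg Kh Kf : ℝ), Nice 10 Kg g → Nice 10 Kh h → Nice 10 Kf f →
    |∫ v, Gs g h v * f v| ≤ C * Kh * √(Dis g + ∫ v, g v ^ 2) * √(Dis f)

/-- weight control used by M3, M4, M6 (from C3) -/
def WgtStmt : Prop :=
  ∃ C : ℝ, 0 < C ∧ ∀ (g : E → ℝ) (K : ℝ), Nice 10 K g →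
    ∫ v, (1 + ‖v‖) ^ 8 * g v ^ 2 ≤ C * (Dis g + ∫ v, g v ^ 2)

end Pool.Agent.MP_187b32_an.Coll
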