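import Pool.Agent.MP_187b32_an.Coll.Bound
import Pool.Agent.MP_187b32_an.Herm.Basic

/-!
Schwartz functions are nice; differentiation of the trilinear operator under the integral.
-/

open MeasureTheory Real Set Pool.Agent.Boltz
open scoped ENNReal RealInnerProductSpace ContDiff

noncomputable section

namespace Pool.Agent.MP_187b32_an.Coll

/-- supremum of the Schwartz seminorms up to order (k, n) -/
def SN (k n : ℕ) : Seminorm ℝ SV :=
  (Finset.Iic (k, n)).sup fun m => SchwartzMap.seminorm ℝ m.1 m.2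

lemma continuous_SN (k n : ℕ) : Continuous (SN k n) :=
  Seminorm.continuous_finsetSup fun m _ =>
    (schwartz_withSeminorms ℝ E ℝ).continuous_seminorm m

lemma seminorm_le_SN {k n k' n' : ℕ} (hk : k' ≤ k) (hn : n' ≤ n) (f : SV) :
    SchwartzMap.seminorm ℝ k' n' f ≤ SN k n f :=
  Seminorm.le_finset_sup_apply (p := fun m : ℕ × ℕ => (SchwartzMap.seminorm ℝ m.1 m.2 : Seminorm ℝ SV))
    (x := f)
    (i := (k', n')) (s := Finset.Iic (k, n)) (Finset.mem_Iic.2 (Prod.mk_le_mk.2 ⟨hk, hn⟩))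

lemma SN_mono {k n k' n' : ℕ} (hk : k' ≤ k) (hn : n' ≤ n) (f : SV) : SN k' n' f ≤ SN k n f :=
  Seminorm.finset_sup_apply_le (apply_nonneg _ _) fun _ hm =>
    seminorm_le_SN ((Finset.mem_Iic.1 hm).1.trans hk) ((Finset.mem_Iic.1 hm).2.trans hn) f

lemma wt_iter_le {k n k' n' : ℕ} (hk : k' ≤ k) (hn : n' ≤ n) (f : SV) (x : E) :
    (1 + ‖x‖) ^ k' * ‖iteratedFDeriv ℝ n' f x‖ ≤ 2 ^ k * SN k n f :=
  SchwartzMap.one_add_le_sup_seminorm_apply (𝕜 := ℝ) (m := (k, n)) hk hn f x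

lemma wt_abs_le {k k' : ℕ} (n : ℕ) (hk : k' ≤ k) (f : SV) (x : E) :
    (1 + ‖x‖) ^ k' * |f x| ≤ 2 ^ k * SN k n f := by
  simpa using wt_iter_le hk (Nat.zero_le n) f x

theorem nice_SV' {k n p : ℕ} (hk : p ≤ k) (hn : 1 ≤ n) (f : SV) :
    Nice p (2 ^ p * (2 ^ k * SN k n f)) f :=
  nice_of_fderiv f.differentiable (wt_abs_le n hk f) fun v => by
    simpa [norm_iteratedFDeriv_one] using wt_iter_le hk hn f v

/-- Schwartz functions are nice -/
theorem nice_SV (p : ℕ) (f : SV) : Nice p (4 ^ p * SN p 1 f) f := by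
  convert nice_SV' (le_refl p) (le_refl 1) f using 1
  rw [← mul_assoc, ← mul_pow]; norm_num

lemma SN_dV (k n : ℕ) (j : Fin 3) (f : SV) : SN k n (dV j f) ≤ SN k (n + 1) f := by
  refine Seminorm.finset_sup_apply_le (apply_nonneg _ _) fun m hm => ?_
  refine SchwartzMap.seminorm_le_bound ℝ _ _ _ (apply_nonneg _ _) fun x => ?_
  have h1 : ‖iteratedFDeriv ℝ m.2 (dV j f) x‖ ≤ ‖iteratedFDeriv ℝ (m.2 + 1) f x‖ := by
    have h0 : (dV j f : E → ℝ) = fun v => fderiv ℝ f v (ev j) := rfl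
    rw [h0, ← norm_iteratedFDeriv_fderiv]
    have := norm_iteratedFDeriv_clm_apply_const (c := ev j) (x := x) (n := m.2)
      (contDiff_infty_iff_fderiv.1 (f.smooth ⊤)).2.contDiffAt (mod_cast le_top)
    simpa [norm_ev] using this
  calc _ ≤ ‖x‖ ^ m.1 * ‖iteratedFDeriv ℝ (m.2 + 1) f x‖ := by gcongr
    _ ≤ SchwartzMap.seminorm ℝ m.1 (m.2 + 1) f := SchwartzMap.le_seminorm ℝ _ _ f x
    _ ≤ _ := seminorm_le_SN (Finset.mem_Iic.1 hm).1
      (Nat.succ_le_succ (Finset.mem_Iic.1 hm).2) f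

/-- the integrand in the variable u = v - v_* -/
def triJ (a g h : E → ℝ) (v : E) (q : E × S2) : ℝ :=
  ker q.1 q.2 * a (v - q.1) * (g (v - q.1 + ⟪q.1, (q.2 : E)⟫ • (q.2 : E)) *
    h (v - ⟪q.1, (q.2 : E)⟫ • (q.2 : E)) - g (v - q.1) * h v)

lemma triJ_eq (a g h : E → ℝ) (v : E) (q : E × S2) :
    triJ a g h v q = triI a g h v (v - q.1, q.2) := by
  simp [triJ, triI, pv, pw]

lemma measurePreserving_shift (v : E) :
    MeasurePreserving (fun q : E × S2 => (v - q.1, q.2)) mu2 mu2 :=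
  (Measure.measurePreserving_sub_left volume v).prod (MeasurePreserving.id sph)

/-- the shift as a measurable equivalence -/
def shiftE (v : E) : (E × S2) ≃ᵐ (E × S2) where
  toFun q := (v - q.1, q.2)
  invFun q := (v - q.1, q.2)
  left_inv q := by simp
  right_inv q := by simp
  measurable_toFun := (measurePreserving_shift v).measurable
  measurable_invFun := (measurePreserving_shift v).measurable

lemma Tri_eq (a g h : E → ℝ) (v : E) : Tri a g h v = ∫ q, triJ a g h v q ∂mu2 := by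
  simp only [triJ_eq]
  exact ((measurePreserving_shift v).integral_comp (shiftE v).measurableEmbedding _).symm

lemma integrable_triJ {a g h : E → ℝ} {v : E} (H : Integrable (triI a g h v) mu2) :
    Integrable (triJ a g h v) mu2 := by
  have := ((measurePreserving_shift v).integrable_comp_emb (shiftE v).measurableEmbedding).2 H
  exact this.congr (ae_of_all _ fun q => (triJ_eq a g h v q).symm)

/-- dominating function near v -/
def dom (v : E) (q : E × S2) : ℝ :=
  ker q.1 q.2 * min 1 |⟪q.1, (q.2 : E)⟫| * |((1 + ‖v - q.1‖) ^ 13)⁻¹|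

lemma integrable_dom (v : E) : Integrable (dom v) mu2 := by
  have h1 := lintegral_ker_min_le (a := fun w => ((1 + ‖w‖) ^ 13)⁻¹) (Ka := 1) (by fun_prop)
    (fun w => by rw [abs_of_pos (by positivity), mul_inv_cancel₀ (by positivity)]) v
  rw [← (measurePreserving_shift v).lintegral_comp (by fun_prop)] at h1
  refine ⟨Measurable.aestronglyMeasurable (by unfold dom; fun_prop), ?_⟩
  rw [hasFiniteIntegral_iff_ofReal (ae_of_all _ fun q => by
    have := ker_nonneg q.1 q.2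
    simp only [dom, Pi.zero_apply]; positivity)]
  refine lt_of_le_of_lt (le_of_eq ?_) (h1.trans_lt ENNReal.ofReal_lt_top)
  simp [dom]

lemma abs_triJ_le {a g h : E → ℝ} {Ka Kg Kh : ℝ} (hKa : ∀ w, (1 + ‖w‖) ^ 13 * |a w| ≤ Ka)
    (Hg : Nice 0 Kg g) (Hh : Nice 0 Kh h) (v x : E) (hx : x ∈ Metric.ball v 1) (q : E × S2) :
    |triJ a g h x q| ≤ 2 ^ 14 * Ka * Kg * Kh * dom v q := by
  have hg := Hg.nonneg
  have hh := Hh.nonneg
  have h1 := abs_triI_le (a := a) Hg Hh x (x - q.1, q.2)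
  rw [← triJ_eq] at h1
  simp only [sub_sub_cancel, pow_zero, div_one, zero_add, pow_one] at h1
  have h2 : |a (x - q.1)| ≤ 2 ^ 13 * Ka * |((1 + ‖v - q.1‖) ^ 13)⁻¹| := by
    rw [abs_of_pos (a := ((1 + ‖v - q.1‖) ^ 13)⁻¹) (by positivity), ← div_eq_mul_inv,
      le_div_iff₀ (wt_pos _ _)]
    have h3 : 1 + ‖v - q.1‖ ≤ 2 * (1 + ‖x - q.1‖) := wt_le_two_mul (by
      simpa [dist_eq_norm] using (Metric.mem_ball.1 hx).le)
    calc |a (x - q.1)| * (1 + ‖v - q.1‖) ^ 13 ≤ |a (x - q.1)| * (2 * (1 + ‖x - q.1‖)) ^ 13 := by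
          gcongr
      _ = 2 ^ 13 * ((1 + ‖x - q.1‖) ^ 13 * |a (x - q.1)|) := by ring
      _ ≤ _ := by gcongr; exact hKa _
  have := ker_nonneg q.1 q.2
  calc _ ≤ _ := h1
    _ ≤ 2 * Kg * Kh * (ker q.1 q.2 * min 1 |⟪q.1, (q.2 : E)⟫| *
        (2 ^ 13 * Ka * |((1 + ‖v - q.1‖) ^ 13)⁻¹|)) := by gcongr
    _ = _ := by rw [dom]; ring

/-- coordinate functionals -/
abbrev pr (i : Fin 3) : E →L[ℝ] ℝ := EuclideanSpace.proj i

lemma norm_pr_le (i : Fin 3) : ‖pr i‖ ≤ 1 :=
  ContinuousLinearMap.opNorm_le_bound _ zero_le_one fun x => by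
    simpa using PiLp.norm_apply_le x i

lemma clm_eq_sum (L : E →L[ℝ] ℝ) : L = ∑ i, L (ev i) • pr i := by
  ext x
  have : x = ∑ i, x i • ev i := by
    ext j; simp [Fin.sum_univ_three, ev]
    fin_cases j <;> simp
  conv_lhs => rw [this]
  simp [mul_comm]

lemma hasFDerivAt_triJ (a g h : SV) (q : E × S2) (x : E) :
    HasFDerivAt (fun y => triJ a g h y q) (∑ i, (triJ (dV i a) g h x q + triJ a (dV i g) h x q +
      triJ a g (dV i h) x q) • pr i) x := by
  have ha := (a.hasFDerivAt (x - q.1)).comp x ((hasFDerivAt_id x).sub_const q.1)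
  have hg1 := (g.hasFDerivAt (x - q.1 + ⟪q.1, (q.2 : E)⟫ • (q.2 : E))).comp x
    (((hasFDerivAt_id x).sub_const q.1).add_const _)
  have hg2 := (g.hasFDerivAt (x - q.1)).comp x ((hasFDerivAt_id x).sub_const q.1)
  have hh1 := (h.hasFDerivAt (x - ⟪q.1, (q.2 : E)⟫ • (q.2 : E))).comp x
    ((hasFDerivAt_id x).sub_const _)
  have hh2 := h.hasFDerivAt x
  have H := (ha.const_mul (ker q.1 q.2)).mul ((hg1.mul hh1).sub (hg2.mul hh2))
  refine HasFDerivAt.congr_fderiv H ?_
  rw [clm_eq_sum (_ + _)]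
  refine Finset.sum_congr rfl fun i _ => ?_
  congr 1
  simp [triJ, dV_apply]
  ring

lemma integrable_triI_SV (a g h : SV) (v : E) : Integrable (triI a g h v) mu2 :=
  integrable_triI a.continuous.measurable (wt_abs_le 0 le_rfl a) (nice_SV 0 g) (nice_SV 0 h) v

lemma integrable_triJ_SV (a g h : SV) (v : E) : Integrable (triJ a g h v) mu2 :=
  integrable_triJ (integrable_triI_SV a g h v)

theorem hasFDerivAt_Tri (a g h : SV) (v : E) :
    HasFDerivAt (Tri a g h) (∑ i, (Tri (dV i a) g h v + Tri a (dV i g) h v +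
      Tri a g (dV i h) v) • pr i) v := by
  have hI := integrable_triJ_SV
  have hI3 : ∀ i, Integrable (fun q => triJ (dV i a) g h v q + triJ a (dV i g) h v q +
      triJ a g (dV i h) v q) mu2 := fun i => ((hI _ _ _ v).add (hI _ _ _ v)).add (hI _ _ _ v)
  have hb : ∀ a g h : SV, ∃ C, ∀ x ∈ Metric.ball v 1, ∀ q, |triJ a g h x q| ≤ C * dom v q :=
    fun a g h => ⟨_, fun x hx q =>
      abs_triJ_le (wt_abs_le 0 le_rfl a) (nice_SV 0 g) (nice_SV 0 h) v x hx q⟩
  choose C hC using hb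
  have H := hasFDerivAt_integral_of_dominated_of_fderiv_le (μ := mu2)
    (F := fun y q => triJ a g h y q)
    (F' := fun x q => ∑ i, (triJ (dV i a) g h x q + triJ a (dV i g) h x q +
      triJ a g (dV i h) x q) • pr i)
    (bound := fun q => (∑ i, (C (dV i a) g h + C a (dV i g) h + C a g (dV i h))) * dom v q)
    (Metric.ball_mem_nhds v one_pos)
    (Filter.Eventually.of_forall fun x => (hI a g h x).aestronglyMeasurable) (hI a g h v)
    (integrable_finsetSum _ fun i _ => (hI3 i).smul_const (pr i)).aestronglyMeasurable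
    (ae_of_all _ fun q x hx => ?_) ((integrable_dom v).const_mul _)
    (ae_of_all _ fun q x _ => hasFDerivAt_triJ a g h q x)
  · rw [integral_finsetSum _ fun i _ => (hI3 i).smul_const (pr i)] at H
    have e : Tri a g h = fun y => ∫ q, triJ a g h y q ∂mu2 := funext (Tri_eq a g h)
    rw [e]
    refine H.congr_fderiv (Finset.sum_congr rfl fun i _ => ?_)
    have i2 : Integrable (fun q => triJ (dV i a) g h v q + triJ a (dV i g) h v q) mu2 :=
      (hI _ _ _ v).add (hI _ _ _ v)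
    rw [integral_smul_const, integral_add i2 (hI _ _ _ v), integral_add (hI _ _ _ v) (hI _ _ _ v),
      Tri_eq, Tri_eq, Tri_eq]
  · rw [Finset.sum_mul]
    refine (norm_sum_le _ _).trans (Finset.sum_le_sum fun i _ => ?_)
    rw [norm_smul, Real.norm_eq_abs]
    refine (mul_le_of_le_one_right (abs_nonneg _) (norm_pr_le i)).trans ?_
    refine (abs_add_three _ _ _).trans ?_
    linarith [hC (dV i a) g h x hx q, hC a (dV i g) h x hx q, hC a g (dV i h) x hx q]

end Pool.Agent.MP_187b32_an.Coll
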