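import Pool.Agent.MP_187b32_an.Coll.Sigma
import Pool.Agent.MP_187b32_an.M6.Final

/-!
The passage to the physical variables, unconditional form.
-/

namespace Pool.Agent.MP_187b32_an.Coll

theorem sigmaStmt : M6.SigmaStmt := ⟨0, fun _ _ hG V => sigma_eq hG V⟩

theorem finalStmt : FinalStmt := M6.final_of sigmaStmt

end Pool.Agent.MP_187b32_an.Coll
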