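import Pool.Agent.MP_187b32_an.Coll.Defs

/-!
Geometric tools: polar coordinates, slices along a unit vector, symmetries of the collision measure.
-/

open MeasureTheory Real Set
open scoped ENNReal RealInnerProductSpace

noncomputable section

namespace Pool.Agent.MP_187b32_an.Coll

/-! polar coordinates -/

theorem lintegral_polar_gen {X : Type*} [NormedAddCommGroup X] [NormedSpace ℝ X]
    [FiniteDimensional ℝ X] [MeasurableSpace X] [BorelSpace X] [Nontrivial X]
    (μ : Measure X) [μ.IsAddHaarMeasure] (F : X → ℝ≥0∞) (hF : Measurable F) :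
    ∫⁻ z, F z ∂μ = ∫⁻ o, (∫⁻ r in Ioi (0 : ℝ),
      ENNReal.ofReal (r ^ (Module.finrank ℝ X - 1)) * F (r • (o : X))) ∂μ.toSphere := by
  have h1 : ∫⁻ z, F z ∂μ = ∫⁻ x : ({0}ᶜ : Set X), F x ∂(μ.comap (↑)) := by
    rw [lintegral_subtype_comap (measurableSet_singleton _).compl, restrict_compl_singleton]
  have hm : Measurable fun p : Metric.sphere (0 : X) 1 × Ioi (0 : ℝ) => F (p.2.1 • p.1.1) := by
    apply hF.comp; fun_prop
  have h2 := μ.measurePreserving_homeomorphUnitSphereProd.lintegral_comp hm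
  have h3 : ∀ x : ({0}ᶜ : Set X),
      ((homeomorphUnitSphereProd X x).2.1 • (homeomorphUnitSphereProd X x).1.1 : X) = x := by
    intro x
    have hx : (x : X) ≠ 0 := x.2
    simp [homeomorphUnitSphereProd_apply_fst_coe, homeomorphUnitSphereProd_apply_snd_coe,
      smul_smul, norm_ne_zero_iff.2 hx]
  simp only [h3] at h2
  rw [h1, h2, lintegral_prod _ hm.aemeasurable]
  refine lintegral_congr fun o => ?_
  rw [Measure.volumeIoiPow, lintegral_withDensity_eq_lintegral_mul _ (by fun_prop)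
    (by apply hF.comp; fun_prop)]
  exact lintegral_subtype_comap measurableSet_Ioi
    (fun r : ℝ => ENNReal.ofReal (r ^ (Module.finrank ℝ X - 1)) * F (r • (o : X)))

theorem lintegral_polar (F : E → ℝ≥0∞) (hF : Measurable F) :
    ∫⁻ z, F z = ∫⁻ o, (∫⁻ r in Ioi (0 : ℝ), ENNReal.ofReal (r ^ 2) * F (r • (o : E))) ∂sph := by
  have := lintegral_polar_gen (volume : Measure E) F hF
  simpa [sph] using this

/-- radial functions on the plane -/
theorem lintegral_radial2 (F : ℝ → ℝ≥0∞) (hF : Measurable F) :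
    ∫⁻ y : E2, F ‖y‖ = ENNReal.ofReal (2 * π) * ∫⁻ r in Ioi (0 : ℝ), ENNReal.ofReal r * F r := by
  have := lintegral_polar_gen (volume : Measure E2) (fun y => F ‖y‖) (hF.comp measurable_norm)
  rw [this]
  have h : ∀ o : Metric.sphere (0 : E2) 1, (∫⁻ r in Ioi (0 : ℝ),
      ENNReal.ofReal (r ^ (Module.finrank ℝ E2 - 1)) * F ‖r • (o : E2)‖)
      = ∫⁻ r in Ioi (0 : ℝ), ENNReal.ofReal r * F r := by
    intro o
    refine setLIntegral_congr_fun measurableSet_Ioi fun r hr => ?_
    have hr' : (0 : ℝ) < r := hr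
    simp [norm_smul, abs_of_pos hr']
  simp only [h]
  rw [lintegral_const, Measure.toSphere_apply_univ, EuclideanSpace.volume_ball_fin_two, mul_comm]
  congr 1
  simp [ENNReal.ofReal_mul]

theorem sph_univ : sph univ = ENNReal.ofReal (4 * π) := by
  rw [sph, Measure.toSphere_apply_univ, EuclideanSpace.volume_ball_fin_three]
  simp only [finrank_euclideanSpace, Fintype.card_fin, ENNReal.ofReal_one, one_pow, one_mul]
  rw [← ENNReal.ofReal_natCast, ← ENNReal.ofReal_mul (by norm_num)]
  congr 1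
  push_cast; ring

lemma norm_coe (o : S2) : ‖(o : E)‖ = 1 := by simp

lemma inner_coe_self (o : S2) : ⟪(o : E), (o : E)⟫ = 1 := by
  rw [real_inner_self_eq_norm_sq, norm_coe]; norm_num

/-- a linear isometry acting on the sphere -/
def sphMap (T : E ≃ₗᵢ[ℝ] E) (o : S2) : S2 := ⟨T o, by simp⟩

lemma measurable_sphMap (T : E ≃ₗᵢ[ℝ] E) : Measurable (sphMap T) := by
  apply Measurable.subtype_mk
  exact T.continuous.measurable.comp measurable_subtype_coe

/-- integrals over the sphere as integrals over the unit ball -/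
theorem lintegral_sph_eq_ball (F : E → ℝ≥0∞) (hF : Measurable F) :
    ∫⁻ o, F o ∂sph = 3 * ∫⁻ z in Metric.ball (0 : E) 1, F (‖z‖⁻¹ • z) := by
  have hm : Measurable fun z : E => F (‖z‖⁻¹ • z) := by apply hF.comp; fun_prop
  rw [← lintegral_indicator measurableSet_ball,
    lintegral_polar _ (hm.indicator measurableSet_ball)]
  have h : ∀ o : S2, (∫⁻ r in Ioi (0 : ℝ), ENNReal.ofReal (r ^ 2) *
      (Metric.ball (0 : E) 1).indicator (fun z : E => F (‖z‖⁻¹ • z)) (r • (o : E)))
      = ENNReal.ofReal (1 / 3) * F o := by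
    intro o
    have h1 : (∫⁻ r in Ioi (0 : ℝ), ENNReal.ofReal (r ^ 2) *
      (Metric.ball (0 : E) 1).indicator (fun z : E => F (‖z‖⁻¹ • z)) (r • (o : E)))
        = ∫⁻ r in Ioi (0 : ℝ), (Iio (1 : ℝ)).indicator (fun r => ENNReal.ofReal (r ^ 2) * F o) r := by
      refine setLIntegral_congr_fun measurableSet_Ioi fun r hr => ?_
      have hr' : (0 : ℝ) < r := hr
      by_cases h1 : r < 1
      · rw [indicator_of_mem (by simpa [norm_smul, abs_of_pos hr'] using h1),
          indicator_of_mem (by simpa using h1)]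
        simp [norm_smul, abs_of_pos hr', smul_smul, hr'.ne']
      · rw [indicator_of_notMem (by simpa [norm_smul, abs_of_pos hr'] using h1),
          indicator_of_notMem (by simpa using h1)]
        simp
    rw [h1, lintegral_indicator measurableSet_Iio, Measure.restrict_restrict measurableSet_Iio,
      Iio_inter_Ioi, lintegral_mul_const _ (by fun_prop)]
    congr 1
    rw [restrict_Ioo_eq_restrict_Ioc, ← ofReal_integral_eq_lintegral_ofReal
      (intervalIntegral.intervalIntegrable_pow 2).1 (ae_of_all _ fun x => by positivity),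
      ← intervalIntegral.integral_of_le zero_le_one]
    congr 1
    rw [integral_pow]; norm_num
  simp only [h]
  have hF' : Measurable fun o : S2 => F o := hF.comp measurable_subtype_coe
  rw [lintegral_const_mul _ hF', ← mul_assoc]
  have : (3 : ℝ≥0∞) * ENNReal.ofReal (1 / 3) = 1 := by
    rw [show (3 : ℝ≥0∞) = ENNReal.ofReal 3 by simp, ← ENNReal.ofReal_mul (by norm_num)]; simp
  rw [this, one_mul]

theorem lintegral_sph_isometry (T : E ≃ₗᵢ[ℝ] E) (F : E → ℝ≥0∞) (hF : Measurable F) :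
    ∫⁻ o, F (T o) ∂sph = ∫⁻ o, F o ∂sph := by
  rw [lintegral_sph_eq_ball F hF,
    lintegral_sph_eq_ball (fun x => F (T x)) (hF.comp T.continuous.measurable)]
  congr 1
  have hm : Measurable fun z : E => F (‖z‖⁻¹ • z) := by apply hF.comp; fun_prop
  rw [← lintegral_indicator measurableSet_ball, ← lintegral_indicator measurableSet_ball,
    ← T.measurePreserving.lintegral_comp (hm.indicator measurableSet_ball)]
  refine lintegral_congr fun z => ?_
  by_cases hz : z ∈ Metric.ball (0 : E) 1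
  · rw [indicator_of_mem hz, indicator_of_mem (by simpa using hz)]; simp
  · rw [indicator_of_notMem hz, indicator_of_notMem (by simpa using hz)]

theorem lintegral_sph_neg (F : E → ℝ≥0∞) (hF : Measurable F) :
    ∫⁻ o : S2, F (-(o : E)) ∂sph = ∫⁻ o, F o ∂sph :=
  lintegral_sph_isometry (LinearIsometryEquiv.neg ℝ) F hF

theorem measurePreserving_sphMap (T : E ≃ₗᵢ[ℝ] E) : MeasurePreserving (sphMap T) sph sph := by
  refine ⟨measurable_sphMap T, ?_⟩
  ext s hs
  rw [Measure.map_apply (measurable_sphMap T) hs]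
  have hs' : MeasurableSet ((↑) '' s : Set E) :=
    (MeasurableEmbedding.subtype_coe Metric.isClosed_sphere.measurableSet).measurableSet_image.2 hs
  have h := lintegral_sph_isometry T (((↑) '' s : Set E).indicator 1)
    (measurable_one.indicator hs')
  rw [← lintegral_indicator_one hs, ← lintegral_indicator_one (measurable_sphMap T hs)]
  convert h using 2
  · funext o
    by_cases ho : sphMap T o ∈ s
    · rw [indicator_of_mem (show o ∈ sphMap T ⁻¹' s from ho),
        indicator_of_mem (show T o ∈ ((↑) '' s : Set E) from ⟨_, ho, rfl⟩)]; rfl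
    · rw [indicator_of_notMem (show o ∉ sphMap T ⁻¹' s from ho), indicator_of_notMem]
      rintro ⟨o', h1, h2⟩
      exact ho (by rwa [show sphMap T o = o' from Subtype.ext h2.symm])
  · funext o
    by_cases ho : o ∈ s
    · rw [indicator_of_mem ho, indicator_of_mem (show (o : E) ∈ ((↑) '' s : Set E) from ⟨_, ho, rfl⟩)]
      rfl
    · rw [indicator_of_notMem ho, indicator_of_notMem]
      rintro ⟨o', h1, h2⟩
      exact ho (by rwa [← show o' = o from Subtype.ext h2])

/-- polar coordinates along whole lines -/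
theorem lintegral_polar_line (F : E → ℝ≥0∞) (hF : Measurable F) :
    ∫⁻ o, (∫⁻ r : ℝ, ENNReal.ofReal (r ^ 2) * F (r • (o : E))) ∂sph = 2 * ∫⁻ z, F z := by
  have hm : Measurable fun p : E × ℝ => ENNReal.ofReal (p.2 ^ 2) * F (p.2 • p.1) := by
    refine Measurable.mul (by fun_prop) (hF.comp (by fun_prop))
  have h : ∀ o : E, (∫⁻ r : ℝ, ENNReal.ofReal (r ^ 2) * F (r • o)) =
      (∫⁻ r in Ioi (0 : ℝ), ENNReal.ofReal (r ^ 2) * F (r • o)) +
      (∫⁻ r in Ioi (0 : ℝ), ENNReal.ofReal (r ^ 2) * F (r • (-o))) := by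
    intro o
    rw [← lintegral_add_compl _ (measurableSet_Ioi (a := (0 : ℝ))), compl_Ioi]
    congr 1
    rw [← restrict_Iio_eq_restrict_Iic, ← lintegral_indicator measurableSet_Iio,
      ← lintegral_indicator measurableSet_Ioi, ← lintegral_neg_eq_self]
    refine lintegral_congr fun r => ?_
    by_cases hr : 0 < r
    · rw [indicator_of_mem (by simpa using hr), indicator_of_mem (by simpa using hr)]; simp
    · rw [indicator_of_notMem (by simpa using hr), indicator_of_notMem (by simpa using hr)]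
  have hG : Measurable fun o : E => ∫⁻ r in Ioi (0 : ℝ), ENNReal.ofReal (r ^ 2) * F (r • o) :=
    hm.lintegral_prod_right'
  simp only [h]
  have hG' : Measurable fun o : S2 =>
      ∫⁻ r in Ioi (0 : ℝ), ENNReal.ofReal (r ^ 2) * F (r • (o : E)) :=
    hG.comp measurable_subtype_coe
  rw [lintegral_add_left hG', lintegral_sph_neg _ hG, two_mul,
    lintegral_polar F hF]

/-! slices -/

theorem exists_slice (e : E) (he : ‖e‖ = 1) :
    ∃ ι : E2 →ₗᵢ[ℝ] E, (∀ y, ⟪e, ι y⟫ = 0) ∧ (∀ x, ∃ y, x = ⟪e, x⟫ • e + ι y) ∧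
      MeasurePreserving (fun p : ℝ × E2 => p.1 • e + ι p.2) := by
  have he0 : e ≠ 0 := by rintro rfl; simp at he
  have : Fact (Module.finrank ℝ E = 2 + 1) := ⟨by simp⟩
  let b := OrthonormalBasis.fromOrthogonalSpanSingleton (𝕜 := ℝ) 2 he0
  let ι : E2 →ₗᵢ[ℝ] E := (ℝ ∙ e)ᗮ.subtypeₗᵢ.comp b.repr.symm.toLinearIsometry
  have h0 : ∀ y, ⟪e, ι y⟫ = 0 := fun y =>
    Submodule.mem_orthogonal_singleton_iff_inner_right.1 (b.repr.symm y).2
  have hee : ⟪e, e⟫ = 1 := by rw [real_inner_self_eq_norm_sq, he]; norm_num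
  let L : WithLp 2 (ℝ × E2) →ₗ[ℝ] E :=
    ((LinearMap.toSpanSingleton ℝ E e).coprod ι.toLinearMap).comp
      (WithLp.linearEquiv 2 ℝ (ℝ × E2)).toLinearMap
  have hL : ∀ p : WithLp 2 (ℝ × E2), L p = p.ofLp.1 • e + ι p.ofLp.2 := fun p => by
    simp [L]
  let T : WithLp 2 (ℝ × E2) →ₗᵢ[ℝ] E := L.isometryOfInner fun p q => by
    rw [hL, hL, inner_add_left, inner_add_right, inner_add_right, inner_smul_left, inner_smul_left,
      inner_smul_right, inner_smul_right, hee, h0, real_inner_comm, h0, ι.inner_map_map,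
      WithLp.prod_inner_apply]
    simp [mul_comm]
  let T' := T.toLinearIsometryEquiv (by
    rw [(WithLp.linearEquiv 2 ℝ (ℝ × E2)).finrank_eq]; simp)
  refine ⟨ι, h0, fun x => ?_, ?_⟩
  · obtain ⟨p, hp⟩ := T'.surjective x
    have hp' : x = p.ofLp.1 • e + ι p.ofLp.2 := by rw [← hp, ← hL]; rfl
    refine ⟨p.ofLp.2, ?_⟩
    have : ⟪e, x⟫ = p.ofLp.1 := by
      rw [hp', inner_add_right, inner_smul_right, hee, h0]; ring
    rw [this, ← hp']
  · have := T'.measurePreserving.comp (WithLp.volume_preserving_toLp ℝ E2)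
    convert this using 1
    funext p
    exact (hL (WithLp.toLp 2 p)).symm

theorem lintegral_slice {e : E} {ι : E2 →ₗᵢ[ℝ] E}
    (h : MeasurePreserving (fun p : ℝ × E2 => p.1 • e + ι p.2)) (F : E → ℝ≥0∞)
    (hF : Measurable F) : ∫⁻ u, F u = ∫⁻ r : ℝ, ∫⁻ y : E2, F (r • e + ι y) := by
  rw [← h.lintegral_comp hF, Measure.volume_eq_prod]
  exact lintegral_prod _ (hF.comp h.measurable).aemeasurable

lemma norm_sq_slice {e : E} (he : ‖e‖ = 1) {ι : E2 →ₗᵢ[ℝ] E} (h0 : ∀ y, ⟪e, ι y⟫ = 0)
    (r : ℝ) (y : E2) : ‖r • e + ι y‖ ^ 2 = r ^ 2 + ‖y‖ ^ 2 := by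
  rw [norm_add_sq_real, inner_smul_left, h0, norm_smul, he, ι.norm_map]; simp

lemma inner_slice {e : E} (he : ‖e‖ = 1) {ι : E2 →ₗᵢ[ℝ] E} (h0 : ∀ y, ⟪e, ι y⟫ = 0)
    (r : ℝ) (y : E2) : ⟪e, r • e + ι y⟫ = r := by
  rw [inner_add_right, inner_smul_right, h0, real_inner_self_eq_norm_sq, he]; simp

end Pool.Agent.MP_187b32_an.Coll
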