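import Pool.Agent.MP_187b32_an.Coll.Op
import Pool.Agent.MP_187b32_an.C3.Main

/-!
Module M2, unconditional form.
-/

namespace Pool.Agent.MP_187b32_an.Coll

theorem collStmt : CollStmt := coll_of C3.c3

theorem triStmt : TriStmt := tri_of C3.c3

theorem wgtStmt : WgtStmt := wgt_of C3.c3

end Pool.Agent.MP_187b32_an.Coll
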