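import Pool.Agent.MP_187b32_an.Coll.C1
import Pool.Agent.MP_187b32_an.Coll.C2

/-!
The trilinear estimate, the weight estimate and the positivity inequality, from C3.
-/

open MeasureTheory Real Set
open scoped ENNReal RealInnerProductSpace

noncomputable section

namespace Pool.Agent.MP_187b32_an.Coll

lemma abs_integral_le_sqrt {α : Type*} [MeasurableSpace α] {μ : Measure α} {k F G : α → ℝ}
    (hk : Measurable k) (hF : Measurable F) (hG : Measurable G) (h0 : ∀ x, 0 ≤ k x) {A B : ℝ}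
    (hA0 : 0 ≤ A) (hB0 : 0 ≤ B) (hA : ∫⁻ x, ENNReal.ofReal (k x * F x ^ 2) ∂μ ≤ ENNReal.ofReal A)
    (hB : ∫⁻ x, ENNReal.ofReal (k x * G x ^ 2) ∂μ ≤ ENNReal.ofReal B) :
    |∫ x, k x * F x * G x ∂μ| ≤ √A * √B := by
  have h1 := ENNReal.lintegral_mul_le_Lp_mul_Lq μ Real.HolderConjugate.two_two
    (f := fun x => ENNReal.ofReal (√(k x) * |F x|)) (g := fun x => ENNReal.ofReal (√(k x) * |G x|))
    (by fun_prop) (by fun_prop)
  have e : ∀ (H : α → ℝ) x, ENNReal.ofReal (√(k x) * |H x|) ^ (2 : ℝ)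
      = ENNReal.ofReal (k x * H x ^ 2) := by
    intro H x
    rw [ENNReal.ofReal_rpow_of_nonneg (by positivity) (by norm_num), Real.rpow_two, mul_pow,
      Real.sq_sqrt (h0 x), sq_abs]
  simp only [e, Pi.mul_apply] at h1
  rw [← ENNReal.ofReal_le_ofReal_iff (by positivity), ← Real.enorm_eq_ofReal_abs]
  refine (enorm_integral_le_lintegral_enorm _).trans (le_trans (le_of_eq ?_) (h1.trans ?_))
  · refine lintegral_congr fun x => ?_
    rw [Real.enorm_eq_ofReal_abs, ← ENNReal.ofReal_mul (by positivity), abs_mul, abs_mul,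
      abs_of_nonneg (h0 x)]
    congr 1
    linear_combination (-(|F x| * |G x|)) * Real.mul_self_sqrt (h0 x)
  · rw [ENNReal.ofReal_mul (by positivity), Real.sqrt_eq_rpow, Real.sqrt_eq_rpow,
      ← ENNReal.ofReal_rpow_of_nonneg hA0 (by norm_num),
      ← ENNReal.ofReal_rpow_of_nonneg hB0 (by norm_num)]
    gcongr

variable {p : ℕ} {K Kg Kh Kf : ℝ} {g h f : E → ℝ}

lemma integrable_wt_sq (Hg : Nice 10 K g) (m : ℕ) (hm : m ≤ 16) :
    Integrable fun v => (1 + ‖v‖) ^ m * g v ^ 2 := by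
  have hc := Hg.continuous
  refine ((integrable_wt 4 (by norm_num)).const_mul (K ^ 2)).mono'
    (Continuous.aestronglyMeasurable (by fun_prop)) (ae_of_all _ fun v => ?_)
  rw [Real.norm_of_nonneg (by positivity), ← div_eq_mul_inv, le_div_iff₀ (wt_pos v 4)]
  calc (1 + ‖v‖) ^ m * g v ^ 2 * (1 + ‖v‖) ^ 4 ≤ (1 + ‖v‖) ^ 16 * g v ^ 2 * (1 + ‖v‖) ^ 4 := by
        gcongr; linarith [norm_nonneg v]
    _ = ((1 + ‖v‖) ^ 10 * |g v|) ^ 2 := by rw [mul_pow, sq_abs]; ring
    _ ≤ K ^ 2 := by gcongr; exact Hg.1 v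

lemma integrable_sq (Hg : Nice 10 K g) : Integrable fun v => g v ^ 2 := by
  simpa using integrable_wt_sq Hg 0 (by norm_num)

lemma L2L_eq (Hg : Nice 10 K g) : L2L g = ENNReal.ofReal (∫ v, g v ^ 2) :=
  (ofReal_integral_eq_lintegral_ofReal (integrable_sq Hg) (ae_of_all _ fun _ => sq_nonneg _)).symm

lemma NL_le (h3 : C3Stmt) : ∃ C : ℝ, 0 < C ∧ ∀ (g : E → ℝ) (K : ℝ), Nice 10 K g →
    NL g ≤ ENNReal.ofReal (C * (Dis g + ∫ v, g v ^ 2)) := by
  obtain ⟨C, hC, h3⟩ := h3
  refine ⟨4 * C, by positivity, fun g K Hg => (h3 g K Hg).trans ?_⟩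
  have h1 := Dis_nonneg g
  have h2 : 0 ≤ ∫ v, g v ^ 2 := integral_nonneg fun _ => sq_nonneg _
  rw [DL_eq_ofReal Hg, L2L_eq Hg, ← ENNReal.ofReal_add (by positivity) h2,
    ← ENNReal.ofReal_mul hC.le]
  exact ENNReal.ofReal_le_ofReal (by nlinarith)

theorem wgt_of (h3 : C3Stmt) : WgtStmt := by
  obtain ⟨C, hC, h3⟩ := NL_le h3
  refine ⟨C, hC, fun g K Hg => ?_⟩
  have h1 := Dis_nonneg g
  have h2 : 0 ≤ ∫ v, g v ^ 2 := integral_nonneg fun _ => sq_nonneg _
  rw [← ENNReal.ofReal_le_ofReal_iff (by positivity), ofReal_integral_eq_lintegral_ofReal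
    (integrable_wt_sq Hg 8 (by norm_num)) (ae_of_all _ fun v => by positivity)]
  refine le_trans ?_ (le_add_self.trans (h3 g K Hg))
  refine lintegral_mono fun v => ENNReal.ofReal_le_ofReal ?_
  gcongr
  exact le_wt_rpow v

lemma lintegral_Sym_le (hg : Measurable g) (hh : Measurable h) :
    ∫⁻ q, ENNReal.ofReal (ker3 q * Inc (Sym g h) q ^ 2) ∂mu3 ≤
      4 * ∫⁻ q, ENNReal.ofReal (ker3 q * Inc (fun v w => g v * h w) q ^ 2) ∂mu3 := by
  set F := fun q => ENNReal.ofReal (ker3 q * Inc (fun v w => g v * h w) q ^ 2) with hF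
  have hI : Measurable (Inc fun v w => g v * h w) := measurable_Inc (by fun_prop)
  have hm : Measurable F := by rw [hF]; fun_prop
  calc _ ≤ ∫⁻ q, 2 * (F q + F (swp q)) ∂mu3 := by
        refine lintegral_mono fun q => ?_
        have hk := ker3_nonneg q
        simp only [hF, ker3_swp, Inc_swp]
        rw [← ENNReal.ofReal_add (by positivity) (by positivity),
          show (2 : ℝ≥0∞) = ENNReal.ofReal 2 by simp, ← ENNReal.ofReal_mul (by norm_num)]
        refine ENNReal.ofReal_le_ofReal ?_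
        have e : Inc (Sym g h) q = Inc (fun v w => g v * h w) q + Inc (fun v w => g w * h v) q := by
          simp only [Inc, Sym]; ring
        rw [e]
        nlinarith [mul_nonneg hk
          (sq_nonneg (Inc (fun v w => g v * h w) q - Inc (fun v w => g w * h v) q))]
    _ = _ := by
        have hm2 : Measurable fun q => F q + F (swp q) := hm.add (hm.comp measurable_swp)
        rw [lintegral_const_mul _ hm2, lintegral_add_left hm, lintegral_swp F hm, ← two_mul,
          ← mul_assoc]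
        norm_num

theorem tri_of (h3 : C3Stmt) : TriStmt := by
  obtain ⟨C, hC, h3⟩ := NL_le h3
  obtain ⟨C2, hC2, h2⟩ := c2
  refine ⟨√(C2 * C), by positivity, fun g h f Kg Kh Kf Hg Hh Hf => ?_⟩
  have a1 := Dis_nonneg g
  have a2 : 0 ≤ ∫ v, g v ^ 2 := integral_nonneg fun _ => sq_nonneg _
  have a3 := Dis_nonneg f
  have a4 := Hh.nonneg
  have mg := Hg.measurable
  have mh := Hh.measurable
  have mf := Hf.measurable
  have key := abs_integral_le_sqrt (μ := mu3) measurable_ker3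
    (measurable_Inc (F := Sym g h) (by unfold Sym; fun_prop))
    (measurable_Inc (F := Sym f sM) (by unfold Sym; fun_prop)) ker3_nonneg
    (A := 4 * (C2 * C) * Kh ^ 2 * (Dis g + ∫ v, g v ^ 2)) (B := 4 * Dis f) (by positivity)
    (by positivity) ?_ (DL_eq_ofReal Hf).le
  · rw [integral_Gs_mul Hg Hh Hf, abs_mul]
    refine (mul_le_mul_of_nonneg_left key (abs_nonneg _)).trans (le_of_eq ?_)
    rw [Real.sqrt_mul (by positivity), Real.sqrt_mul (by positivity), Real.sqrt_mul (by positivity),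
      Real.sqrt_sq a4, Real.sqrt_mul (by norm_num : (0 : ℝ) ≤ 4) (Dis f),
      show √(4 : ℝ) = 2 by rw [show (4 : ℝ) = 2 ^ 2 by norm_num, Real.sqrt_sq (by norm_num)],
      abs_neg, abs_of_pos (by norm_num)]
    ring
  · refine (lintegral_Sym_le mg mh).trans ?_
    calc _ ≤ 4 * (ENNReal.ofReal (C2 * Kh ^ 2) *
          ENNReal.ofReal (C * (Dis g + ∫ v, g v ^ 2))) := by
          gcongr
          exact (h2 g h Kh mg Hh).trans (by gcongr; exact h3 g Kg Hg)
      _ = _ := by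
          rw [show (4 : ℝ≥0∞) = ENNReal.ofReal 4 by simp, ← ENNReal.ofReal_mul (by positivity),
            ← ENNReal.ofReal_mul (by norm_num)]
          congr 1; ring

lemma abs_exp_sub_exp_le {A B M : ℝ} (hA : Real.exp A ≤ M) (hB : Real.exp B ≤ M) :
    |Real.exp A - Real.exp B| ≤ M * |A - B| := by
  wlog h : B ≤ A generalizing A B
  · rw [abs_sub_comm, abs_sub_comm A]; exact this hB hA (le_of_not_ge h)
  have h1 := Real.add_one_le_exp (B - A)
  have h2 : Real.exp B = Real.exp A * Real.exp (B - A) := by rw [← Real.exp_add]; congr 1; ring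
  have h3 := Real.exp_pos A
  rw [abs_of_nonneg (sub_nonneg.2 (Real.exp_le_exp.2 h)), abs_of_nonneg (sub_nonneg.2 h)]
  nlinarith [mul_le_mul_of_nonneg_left h1 h3.le, mul_le_mul_of_nonneg_right hA (sub_nonneg.2 h)]

lemma abs_log_wt_sub_le (v z : E) : |Real.log (1 + ‖v + z‖) - Real.log (1 + ‖v‖)| ≤ ‖z‖ := by
  have key : ∀ a b : ℝ, 0 ≤ a → 0 ≤ b → |a - b| ≤ ‖z‖ →
      Real.log (1 + a) - Real.log (1 + b) ≤ ‖z‖ := by
    intro a b ha hb hab
    rw [← Real.log_div (by positivity) (by positivity)]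
    refine (Real.log_le_sub_one_of_pos (by positivity)).trans ?_
    rw [sub_le_iff_le_add, div_le_iff₀ (by positivity)]
    nlinarith [le_abs_self (a - b), norm_nonneg z]
  have h : |‖v + z‖ - ‖v‖| ≤ ‖z‖ := by simpa using abs_norm_sub_norm_le (v + z) v
  rw [abs_sub_le_iff]
  exact ⟨key _ _ (norm_nonneg _) (norm_nonneg _) h,
    key _ _ (norm_nonneg _) (norm_nonneg _) (by rwa [abs_sub_comm])⟩

lemma nice_min_sM (p : ℕ) {K : ℝ} (hK : 0 < K) :
    Nice p (2 ^ (p + 1) * (p + 2) * K) fun v => min (sM v) (K / (1 + ‖v‖) ^ (p + 1)) := by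
  have hp : (1 : ℝ) ≤ 2 ^ (p + 1) * (p + 2) :=
    one_le_mul_of_one_le_of_one_le (one_le_pow₀ one_le_two) (by linarith [Nat.cast_nonneg (α := ℝ) p])
  refine ⟨fun v => ?_, fun v z hz => ?_⟩
  · rw [abs_of_pos (lt_min (sM_pos v) (by positivity))]
    calc _ ≤ (1 + ‖v‖) ^ (p + 1) * (K / (1 + ‖v‖) ^ (p + 1)) := by
          gcongr
          · exact (lt_min (sM_pos v) (by positivity)).le
          · linarith [norm_nonneg v]
          · omega
          · exact min_le_right _ _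
      _ = K := by field_simp
      _ ≤ _ := le_mul_of_one_le_left hK.le hp
  · have e : ∀ x : E, min (sM x) (K / (1 + ‖x‖) ^ (p + 1)) = Real.exp (min (-‖x‖ ^ 2 / 4)
        (Real.log K - (p + 1 : ℕ) * Real.log (1 + ‖x‖))) := by
      intro x
      rw [Real.exp_monotone.map_min, Real.exp_sub, Real.exp_log hK, Real.exp_nat_mul,
        Real.exp_log (by positivity)]
      rfl
    have hM : ∀ x : E, ‖x - v‖ ≤ 1 →
        min (sM x) (K / (1 + ‖x‖) ^ (p + 1)) ≤ 2 ^ (p + 1) * K / (1 + ‖v‖) ^ (p + 1) := by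
      intro x hx
      refine (min_le_right _ _).trans ?_
      rw [div_le_div_iff₀ (wt_pos _ _) (wt_pos _ _)]
      calc K * (1 + ‖v‖) ^ (p + 1) ≤ K * (2 * (1 + ‖x‖)) ^ (p + 1) := by
            gcongr; exact wt_le_two_mul hx
        _ = _ := by rw [mul_pow]; ring
    have h1 := hM (v + z) (by simpa using hz)
    have h2 := hM v (by simp)
    simp only
    rw [e] at h1 h2
    rw [e, e]
    have h3 := abs_exp_sub_exp_le h1 h2
    have h4 : |min (-‖v + z‖ ^ 2 / 4) (Real.log K - (p + 1 : ℕ) * Real.log (1 + ‖v + z‖)) -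
        min (-‖v‖ ^ 2 / 4) (Real.log K - (p + 1 : ℕ) * Real.log (1 + ‖v‖))|
          ≤ (p + 2) * (1 + ‖v‖) * ‖z‖ := by
      have hz0 := norm_nonneg z
      have hv0 := norm_nonneg v
      have hp0 : (0 : ℝ) ≤ p := Nat.cast_nonneg p
      refine (abs_min_sub_min_le_max _ _ _ _).trans (max_le ?_ ?_)
      · have b1 := abs_le.1 (abs_real_inner_le_norm v z)
        rw [norm_add_sq_real, abs_le]
        constructor <;> nlinarith [mul_nonneg hv0 hz0, mul_nonneg hp0 hz0,
          mul_nonneg hp0 (mul_nonneg hv0 hz0)]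
      · rw [sub_sub_sub_cancel_left, ← mul_sub, abs_mul, abs_sub_comm, Nat.abs_cast]
        calc _ ≤ ((p + 1 : ℕ) : ℝ) * ‖z‖ := by gcongr; exact abs_log_wt_sub_le v z
          _ ≤ _ := by
            push_cast
            nlinarith [mul_nonneg hv0 hz0, mul_nonneg hp0 (mul_nonneg hv0 hz0)]
    calc _ ≤ (1 + ‖v‖) ^ p * (2 ^ (p + 1) * K / (1 + ‖v‖) ^ (p + 1) *
          ((p + 2) * (1 + ‖v‖) * ‖z‖)) := by
          gcongr; exact h3.trans (by gcongr)
      _ = _ := by field_simp; ring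

/-- the negative part of sM + g is controlled by g alone -/
theorem nice_negPart (Hg : Nice (p + 1) K g) :
    Nice p ((2 ^ (p + 1) * (p + 2) + 1) * K) fun v => max (-(sM v + g v)) 0 := by
  rcases Hg.nonneg.eq_or_lt with rfl | hK
  · have e : (fun v => max (-(sM v + g v)) 0) = fun _ => 0 := by
      funext v
      have := abs_nonpos_iff.1 (Hg.abs_le v)
      rw [this, max_eq_right]; linarith [sM_pos v]
    rw [e, mul_zero]; exact nice_zero
  have e : (fun v => max (-(sM v + g v)) 0) =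
      fun v => max (-(min (sM v) (K / (1 + ‖v‖) ^ (p + 1)) + g v)) 0 := by
    funext v
    rcases le_total (sM v) (K / (1 + ‖v‖) ^ (p + 1)) with h | h
    · rw [min_eq_left h]
    · have h1 : |g v| ≤ K / (1 + ‖v‖) ^ (p + 1) := by
        rw [le_div_iff₀' (wt_pos _ _)]; exact Hg.1 v
      have h2 := neg_abs_le (g v)
      rw [min_eq_right h, max_eq_right (by linarith), max_eq_right (by linarith)]
  rw [e, add_mul, one_mul]
  exact ((nice_min_sM p hK).add (Hg.mono (Nat.le_succ p))).neg.posPart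

/-- the inequality that gives positivity -/
theorem pos_ineq (h3 : C3Stmt) : ∃ ε0 : ℝ, 0 < ε0 ∧ ∀ (g n : E → ℝ) (K : ℝ), Nice 11 K g →
    K ≤ ε0 → (n = fun v => max (-(sM v + g v)) 0) →
    Nice 10 (24577 * K) n ∧
      (Integrable fun v => Gam (fun x => sM x + g x) (fun x => sM x + g x) v * n v) ∧
      -∫ v, Gam (fun x => sM x + g x) (fun x => sM x + g x) v * n v
        ≤ -(1 / 2) * Dis n + ∫ v, n v ^ 2 := by
  obtain ⟨C, hC, ht⟩ := tri_of h3
  refine ⟨1 / (40000 * C), by positivity, fun g n K Hg hK hn => ?_⟩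
  have Hn : Nice 10 (24577 * K) n := by
    have := nice_negPart (p := 10) Hg
    rw [← hn] at this
    convert this using 2
    norm_num
  have Hg' : Nice 10 K g := Hg.mono (by norm_num)
  refine ⟨Hn, integrable_Gam_mul ((nice_sM 10).add Hg') ((nice_sM 10).add Hg') Hn, ?_⟩
  have h1 := neg_integral_Gam_negPart_le Hg' hn
  have h2 := (abs_le.1 (ht n g n _ _ _ Hn Hg' Hn)).2
  have h4 := (abs_le.1 (ht n n n _ _ _ Hn Hn Hn)).2
  have a1 := Dis_nonneg n
  have a2 : 0 ≤ ∫ v, n v ^ 2 := integral_nonneg fun _ => sq_nonneg _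
  have a3 : √(Dis n + ∫ v, n v ^ 2) * √(Dis n) ≤ Dis n + ∫ v, n v ^ 2 := by
    calc _ ≤ √(Dis n + ∫ v, n v ^ 2) * √(Dis n + ∫ v, n v ^ 2) := by gcongr; linarith
      _ = _ := Real.mul_self_sqrt (by positivity)
  have a4 : C * K ≤ 1 / 40000 := by
    rw [le_div_iff₀ (by positivity)] at hK
    linarith
  have a5 : 0 ≤ C * K := mul_nonneg hC.le Hg.nonneg
  set X := √(Dis n + ∫ v, n v ^ 2) * √(Dis n) with hX
  have a6 : 0 ≤ X := by positivity
  have b1 : C * K * X ≤ 1 / 40000 * (Dis n + ∫ v, n v ^ 2) := by gcongr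
  have e1 : C * K * √(Dis n + ∫ v, n v ^ 2) * √(Dis n) = C * K * X := by rw [hX]; ring
  have e2 : C * (24577 * K) * √(Dis n + ∫ v, n v ^ 2) * √(Dis n) = 24577 * (C * K * X) := by
    rw [hX]; ring
  rw [e1] at h2
  rw [e2] at h4
  linarith

end Pool.Agent.MP_187b32_an.Coll
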