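import Pool.Agent.MP_187b32_an.Coll.Schw
import Pool.Agent.MP_187b32_an.Coll.Tri
import Pool.Agent.MP_187b32_an.Corr.Main
import Pool.Agent.MP_187b32_an.Gap.Main
import Pool.Agent.MP_187b32_an.Calc.HermC

/-!
Module M2 assembled: the collision interface is realised by the concrete operator.
-/

open MeasureTheory Real Set Pool.Agent.Boltz
open scoped ENNReal RealInnerProductSpace

noncomputable section

namespace Pool.Agent.MP_187b32_an.Coll

/-- Schwartz functions are nice, with a constant given by a creation operator norm -/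
theorem nice_nA (p : ℕ) : ∃ C : ℝ, 0 < C ∧ ∀ f : SV, Nice p (C * √(nA (p + 4) f)) f := by
  obtain ⟨C, hC, h⟩ := weighted_le_nA p
  refine ⟨2 ^ p * C, by positivity, fun f => ?_⟩
  rw [mul_assoc]
  refine nice_of_fderiv f.differentiable (fun v => (h f v).1.trans ?_) fun v => (h f v).2
  gcongr
  exact nA_mono (by omega) f

lemma PP_GsB (f g : SV) : PP (GsB f g) = 0 := by
  rw [PP_eq_zero_iff]
  intro i
  rw [ip_comm]
  have h1 : ∀ j, ip (GsB f g) (ap j sqMS) = 0 := fun j => by rw [ap_sqMS, ip_GsB_mulV]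
  fin_cases i
  exacts [ip_GsB_sqMS f g, h1 0, h1 1, h1 2, ip_GsB_energy f g e4 3 e4_apply]

lemma LS_PP (f : SV) : LS (PP f) = 0 := by
  have h1 : ∀ j, LS (ap j sqMS) = 0 := fun j => by rw [ap_sqMS, LS_mulV]
  have h : ∀ i, LS (hb i) = 0 := by
    intro i
    fin_cases i
    exacts [LS_sqMS, h1 0, h1 1, h1 2, LS_energy e4 3 e4_apply]
  simp [PP_apply', h]

theorem gap_LS : ∃ lam : ℝ, 0 < lam ∧ ∀ f : SV, lam * ip (f - PP f) (f - PP f) ≤ ip (LS f) f := by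
  obtain ⟨lam, hl, h⟩ := Gap.c4_of fun _ hf hh => hermite_complete hf hh
  refine ⟨lam / 4, by positivity, fun f => ?_⟩
  have H := nice_SV 10 (f - PP f)
  have h1 := h _ _ H (PP_eq_zero_iff_micro.1 (PP_sub_PP f))
  have h2 := Dis_nonneg (f - PP f : SV)
  rw [DL_eq_ofReal H, L2L_eq H, ← ENNReal.ofReal_mul hl.le,
    ENNReal.ofReal_le_ofReal_iff (by positivity), ← ip_self_eq, ← ip_LS_self] at h1
  have h3 : ip (LS (f - PP f)) (f - PP f) = ip (LS f) f := by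
    rw [map_sub LS, LS_PP, sub_zero, map_sub (ip (LS f)), ip_LS_symm f (PP f), LS_PP]
    simp
  rw [h3] at h1
  linarith

theorem tri_SV (h3 : C3Stmt) : ∃ C : ℝ, 0 < C ∧ ∀ g h f : SV,
    |ip (GsB g h) f| ≤ C * √(nA 14 h) * √(ip (LS g) g + ip g g) * √(ip (LS f) f) := by
  obtain ⟨C, hC, ht⟩ := tri_of h3
  obtain ⟨C', hC', hn⟩ := nice_nA 10
  refine ⟨C * C', by positivity, fun g h f => ?_⟩
  rw [ip_GsB, ip_LS_self, ip_LS_self, ip_self_eq, mul_assoc C]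
  exact ht g h f _ _ _ (hn g) (hn h) (hn f)

theorem wgt_SV (h3 : C3Stmt) : ∃ C : ℝ, 0 < C ∧ ∀ f : SV,
    ∫ v, (1 + ‖v‖) ^ 8 * f v ^ 2 ≤ C * (ip (LS f) f + ip f f) := by
  obtain ⟨C, hC, hw⟩ := wgt_of h3
  refine ⟨C, hC, fun f => ?_⟩
  rw [ip_LS_self, ip_self_eq]
  exact hw f _ (nice_SV 10 f)

lemma sq_Gs_le {f g : E → ℝ} {a b : ℝ} (Hf : Nice 11 a f) (Hg : Nice 11 b g) (v : E) :
    Gs f g v ^ 2 ≤ (cG * 2 ^ 13 * a * b) ^ 2 * ((1 + ‖v‖) ^ 4)⁻¹ := by
  have h1 := abs_Gam_le Hf Hg v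
  have h2 := abs_Gam_le Hg Hf v
  have h3 : (1 + ‖v‖) ^ 2 * |Gs f g v| ≤ cG * 2 ^ 13 * a * b := by
    refine le_of_mul_le_mul_right ?_ (wt_pos v 9)
    calc _ = (1 + ‖v‖) ^ 11 * |Gam f g v + Gam g f v| := by rw [Gs]; ring
      _ ≤ (1 + ‖v‖) ^ 11 * (|Gam f g v| + |Gam g f v|) := by gcongr; exact abs_add_le _ _
      _ = (1 + ‖v‖) ^ 11 * |Gam f g v| + (1 + ‖v‖) ^ 11 * |Gam g f v| := by ring
      _ ≤ _ := add_le_add h1 h2
      _ = _ := by ring
  rw [← div_eq_mul_inv, le_div_iff₀ (wt_pos v 4)]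
  calc Gs f g v ^ 2 * (1 + ‖v‖) ^ 4 = ((1 + ‖v‖) ^ 2 * |Gs f g v|) ^ 2 := by
        rw [mul_pow, sq_abs]; ring
    _ ≤ _ := by gcongr

theorem nA_GsB_le (q : ℕ) : ∃ C : ℝ, 0 < C ∧ ∀ f g : SV,
    nA q (GsB f g) ≤ C * nA (q + 15) f * nA (q + 15) g := by
  induction q with
  | zero =>
    obtain ⟨C, hC, hn⟩ := nice_nA 11
    have hG := cG_pos
    have hI : 0 ≤ ∫ v : E, ((1 + ‖v‖) ^ 4)⁻¹ := integral_nonneg fun _ => by positivity
    refine ⟨(cG * 2 ^ 13 * C * C) ^ 2 * ((∫ v : E, ((1 + ‖v‖) ^ 4)⁻¹) + 1), by positivity,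
      fun f g => ?_⟩
    have hf := nA_nonneg (11 + 4) f
    have hg := nA_nonneg (11 + 4) g
    have h1 := integral_mono (integrable_sq (nice_SV 10 (GsB f g)))
      ((integrable_wt 4 (by norm_num)).const_mul _) fun v => by
        simpa only [GsB_apply] using sq_Gs_le (hn f) (hn g) v
    rw [integral_const_mul] at h1
    rw [nA_zero, ip_self_eq, show 0 + 15 = 11 + 4 from rfl]
    refine h1.trans ?_
    generalize nA (11 + 4) f = x at hf ⊢
    generalize nA (11 + 4) g = y at hg ⊢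
    calc _ = (cG * 2 ^ 13 * C * C) ^ 2 * (∫ v : E, ((1 + ‖v‖) ^ 4)⁻¹) * √x ^ 2 * √y ^ 2 := by ring
      _ ≤ _ := by
        rw [Real.sq_sqrt hf, Real.sq_sqrt hg]
        gcongr; linarith
  | succ q ih =>
    obtain ⟨C, hC, ih⟩ := ih
    refine ⟨12 * C, by positivity, fun f g => ?_⟩
    have key : ∀ x x' y y' : ℝ, 0 ≤ x' → 0 ≤ y → x ≤ x' → y ≤ y' → C * x * y ≤ C * x' * y' := by
      intro x x' y y' h1 h2 h3 h4
      gcongr
    rw [nA_succ, show q + 1 + 15 = q + 15 + 1 by omega]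
    calc _ ≤ ∑ _j : Fin 3, 4 * (C * nA (q + 15 + 1) f * nA (q + 15 + 1) g) := by
          refine Finset.sum_le_sum fun j _ => ?_
          rw [ap_GsB]
          have h1 := (ih (ap j f) g).trans (key _ _ _ _ (nA_nonneg _ _) (nA_nonneg _ _)
            (nA_ap_le _ j f) (nA_le_succ _ g))
          have h2 := (ih f (ap j g)).trans (key _ _ _ _ (nA_nonneg _ _) (nA_nonneg _ _)
            (nA_le_succ _ f) (nA_ap_le _ j g))
          linarith [nA_add_le q (GsB (ap j f) g) (GsB f (ap j g))]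
      _ = _ := by
          rw [Finset.sum_const, Finset.card_univ, Fintype.card_fin, nsmul_eq_mul]
          push_cast; ring

/-- the concrete collision operator -/
def collOp (h3 : C3Stmt) : CollOp where
  G := GsB
  L := LS
  p := 14
  cont := continuous_GsB
  symm := GsB_comm
  leib := ap_GsB
  hyd := PP_GsB
  L_eq := LS_eq
  L_symm := ip_LS_symm
  gap := gap_LS
  tri := tri_SV h3
  wgt := wgt_SV h3
  bdd q := ⟨q + 15, nA_GsB_le q⟩
  inv S _ hS := by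
    obtain ⟨Φ, -, h⟩ := Corr.corrector GsB_comm ap_GsB PP_GsB LS_eq ip_LS_symm gap_LS (tri_SV h3) S hS
    exact ⟨Φ, h⟩

theorem coll_of (h3 : C3Stmt) : CollStmt := ⟨collOp h3, GsB_apply⟩

end Pool.Agent.MP_187b32_an.Coll
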