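import Pool.Agent.MP_187b32_an.Coll.Deriv
import Pool.Agent.MP_187b32_an.Coll.C1

/-!
The collision operator as a jointly continuous bilinear map of Schwartz space; Leibniz rules.
-/

open MeasureTheory Real Set Pool.Agent.Boltz
open scoped ENNReal RealInnerProductSpace ContDiff

noncomputable section

namespace Pool.Agent.MP_187b32_an.Coll

lemma fderiv_Tri (a g h : SV) : fderiv ℝ (Tri a g h) = fun v => ∑ i, (Tri (dV i a) g h v +
    Tri a (dV i g) h v + Tri a g (dV i h) v) • pr i :=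
  funext fun v => (hasFDerivAt_Tri a g h v).fderiv

lemma contDiff_Tri_nat (n : ℕ) : ∀ a g h : SV, ContDiff ℝ n (Tri a g h) := by
  induction n with
  | zero =>
    intro a g h
    exact contDiff_zero.2 (continuous_iff_continuousAt.2 fun v =>
      (hasFDerivAt_Tri a g h v).continuousAt)
  | succ n ih =>
    intro a g h
    rw [Nat.cast_succ, contDiff_succ_iff_fderiv]
    refine ⟨fun v => (hasFDerivAt_Tri a g h v).differentiableAt, by simp, ?_⟩
    rw [fderiv_Tri]
    exact ContDiff.sum fun i _ => (((ih _ _ _).add (ih _ _ _)).add (ih _ _ _)).smul contDiff_const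

lemma contDiff_Tri (a g h : SV) : ContDiff ℝ ∞ (Tri a g h) :=
  contDiff_infty.2 fun n => contDiff_Tri_nat n a g h

theorem Tri_iter_le (k n : ℕ) : ∃ C : ℝ, 0 ≤ C ∧ ∀ (a g h : SV) (v : E),
    (1 + ‖v‖) ^ k * ‖iteratedFDeriv ℝ n (Tri a g h) v‖ ≤
      C * SN 13 n a * SN (k + 9) (n + 1) g * SN (k + 9) (n + 1) h := by
  induction n with
  | zero =>
    have hc := cW_pos
    refine ⟨cW * 2 ^ (k + 9 + 1) * 2 ^ 13 * 4 ^ (k + 9) * 4 ^ (k + 9), by positivity,
      fun a g h v => ?_⟩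
    have h1 := abs_Tri_le a.continuous.measurable (wt_abs_le 0 le_rfl a) (nice_SV (k + 9) g)
      (nice_SV (k + 9) h) v
    rw [norm_iteratedFDeriv_zero, Real.norm_eq_abs]
    refine le_of_mul_le_mul_right ?_ (wt_pos v 9)
    calc _ = (1 + ‖v‖) ^ (k + 9) * |Tri a g h v| := by ring
      _ ≤ _ := h1
      _ = _ := by ring
  | succ n ih =>
    obtain ⟨C, hC, ih⟩ := ih
    refine ⟨9 * C, by positivity, fun a g h v => ?_⟩
    have hs := contDiff_Tri_nat n
    have hs3 : ∀ i, ContDiff ℝ n fun v => Tri (dV i a) g h v + Tri a (dV i g) h v +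
        Tri a g (dV i h) v := fun i => ((hs _ _ _).add (hs _ _ _)).add (hs _ _ _)
    rw [← norm_iteratedFDeriv_fderiv, fderiv_Tri, iteratedFDeriv_fun_sum_apply
      (f := fun i v => (Tri (dV i a) g h v + Tri a (dV i g) h v + Tri a g (dV i h) v) • pr i)
      fun i _ => ((hs3 i).smul contDiff_const).contDiffAt]
    set X := C * SN 13 (n + 1) a * SN (k + 9) (n + 1 + 1) g * SN (k + 9) (n + 1 + 1) h with hX
    have key : ∀ i, (1 + ‖v‖) ^ k * ‖iteratedFDeriv ℝ n (fun v => (Tri (dV i a) g h v +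
        Tri a (dV i g) h v + Tri a g (dV i h) v) • pr i) v‖ ≤ 3 * X := by
      intro i
      have h1 := ((ContinuousLinearMap.id ℝ ℝ).smulRight (pr i)).norm_iteratedFDeriv_comp_left
        (hs3 i).contDiffAt (x := v) (n := n) le_rfl
      have h2 : ‖(ContinuousLinearMap.id ℝ ℝ).smulRight (pr i)‖ ≤ 1 := by
        rw [ContinuousLinearMap.norm_smulRight_apply]
        exact mul_le_one₀ ContinuousLinearMap.norm_id_le (norm_nonneg _) (norm_pr_le i)
      have h3 : iteratedFDeriv ℝ n (fun v => Tri (dV i a) g h v + Tri a (dV i g) h v +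
          Tri a g (dV i h) v) v = iteratedFDeriv ℝ n (Tri (dV i a) g h) v +
          iteratedFDeriv ℝ n (Tri a (dV i g) h) v + iteratedFDeriv ℝ n (Tri a g (dV i h)) v := by
        rw [fun_iteratedFDeriv_add_apply ((hs _ _ _).add (hs _ _ _)).contDiffAt
          (hs _ _ _).contDiffAt, fun_iteratedFDeriv_add_apply (hs _ _ _).contDiffAt
          (hs _ _ _).contDiffAt]
      have m1 := SN_mono (le_refl 13) (Nat.le_succ n) a
      have m2 := SN_mono (le_refl (k + 9)) (Nat.le_succ (n + 1)) g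
      have m3 := SN_mono (le_refl (k + 9)) (Nat.le_succ (n + 1)) h
      have b1 : (1 + ‖v‖) ^ k * ‖iteratedFDeriv ℝ n (Tri (dV i a) g h) v‖ ≤ X :=
        (ih _ _ _ v).trans (by rw [hX]; gcongr; exact SN_dV _ _ _ _)
      have b2 : (1 + ‖v‖) ^ k * ‖iteratedFDeriv ℝ n (Tri a (dV i g) h) v‖ ≤ X :=
        (ih _ _ _ v).trans (by rw [hX]; gcongr; exact SN_dV _ _ _ _)
      have b3 : (1 + ‖v‖) ^ k * ‖iteratedFDeriv ℝ n (Tri a g (dV i h)) v‖ ≤ X :=
        (ih _ _ _ v).trans (by rw [hX]; gcongr; exact SN_dV _ _ _ _)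
      have h4 := (h1.trans (mul_le_of_le_one_left (norm_nonneg _) h2)).trans
        (h3 ▸ norm_add₃_le)
      have h5 := mul_le_mul_of_nonneg_left h4 (wt_pos v k).le
      calc _ ≤ _ := h5
        _ ≤ _ := by linarith
    calc _ ≤ (1 + ‖v‖) ^ k * ∑ i, ‖iteratedFDeriv ℝ n (fun v => (Tri (dV i a) g h v +
          Tri a (dV i g) h v + Tri a g (dV i h) v) • pr i) v‖ := by
          gcongr; exact norm_sum_le _ _
      _ ≤ ∑ _i : Fin 3, 3 * X := by
          rw [Finset.mul_sum]; exact Finset.sum_le_sum fun i _ => key i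
      _ = _ := by simp [hX]; ring

/-- the trilinear operator on Schwartz functions -/
def TriS (a g h : SV) : SV where
  toFun := Tri a g h
  smooth' := contDiff_Tri a g h
  decay' k n := by
    obtain ⟨C, -, hC⟩ := Tri_iter_le k n
    refine ⟨_, fun v => le_trans ?_ (hC a g h v)⟩
    gcongr; linarith

@[simp] lemma TriS_apply (a g h : SV) (v : E) : TriS a g h v = Tri a g h v := rfl

lemma seminorm_TriS_le (k n : ℕ) : ∃ C : ℝ, 0 ≤ C ∧ ∀ a g h : SV,
    SchwartzMap.seminorm ℝ k n (TriS a g h) ≤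
      C * SN 13 n a * SN (k + 9) (n + 1) g * SN (k + 9) (n + 1) h := by
  obtain ⟨C, h0, hC⟩ := Tri_iter_le k n
  refine ⟨C, h0, fun a g h => SchwartzMap.seminorm_le_bound ℝ _ _ _ (by positivity) fun v =>
    le_trans ?_ (hC a g h v)⟩
  change ‖v‖ ^ k * ‖iteratedFDeriv ℝ n (Tri a g h) v‖ ≤ _
  gcongr; linarith

lemma dV_TriS (i : Fin 3) (a g h : SV) :
    dV i (TriS a g h) = TriS (dV i a) g h + TriS a (dV i g) h + TriS a g (dV i h) := by
  ext v
  rw [dV_apply]
  change fderiv ℝ (Tri a g h) v (ev i) = _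
  rw [fderiv_Tri]
  simp [ev_apply]

lemma sqM_eq : sqM = sM := rfl

lemma coe_sqMS : (sqMS : E → ℝ) = sM := funext fun v => sqMS_apply v

/-- Gamma on Schwartz space -/
def GamS : SV →ₗ[ℝ] SV →ₗ[ℝ] SV :=
  LinearMap.mk₂ ℝ (TriS sqMS)
    (fun g g' h => by
      ext v
      exact Tri_add_left sqMS.continuous.measurable (wt_abs_le 0 le_rfl sqMS) (nice_SV 0 g)
        (nice_SV 0 g') (nice_SV 0 h) v)
    (fun c g h => by ext v; exact Tri_smul_left _ _ _ c v)
    (fun g h h' => by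
      ext v
      exact Tri_add_right sqMS.continuous.measurable (wt_abs_le 0 le_rfl sqMS) (nice_SV 0 g)
        (nice_SV 0 h) (nice_SV 0 h') v)
    (fun c g h => by ext v; exact Tri_smul_right _ _ _ c v)

lemma GamS_eq (g h : SV) : GamS g h = TriS sqMS g h := rfl

@[simp] lemma GamS_apply (g h : SV) (v : E) : GamS g h v = Gam g h v := by
  rw [GamS_eq, TriS_apply, coe_sqMS]; rfl

lemma seminorm_GamS_le (k n : ℕ) : ∃ C : ℝ, 0 ≤ C ∧ ∀ g h : SV,
    SchwartzMap.seminorm ℝ k n (GamS g h) ≤ C * SN (k + 9) (n + 1) g * SN (k + 9) (n + 1) h := by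
  obtain ⟨C, h0, hC⟩ := seminorm_TriS_le k n
  exact ⟨C * SN 13 n sqMS, by positivity, fun g h => hC sqMS g h⟩

theorem continuous_GamS : Continuous fun p : SV × SV => GamS p.1 p.2 := by
  refine continuous_iff_continuousAt.2 fun p0 => ?_
  rw [ContinuousAt, (schwartz_withSeminorms ℝ E ℝ).tendsto_nhds]
  rintro ⟨k, n⟩ ε hε
  obtain ⟨C, h0, hC⟩ := seminorm_GamS_le k n
  have hc : Continuous fun p : SV × SV =>
      C * SN (k + 9) (n + 1) (p.1 - p0.1) * SN (k + 9) (n + 1) p.2 +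
        C * SN (k + 9) (n + 1) p0.1 * SN (k + 9) (n + 1) (p.2 - p0.2) := by
    have := continuous_SN (k + 9) (n + 1)
    fun_prop
  have h1 := (hc.tendsto p0).eventually (gt_mem_nhds (a := ε) (by simpa using hε))
  filter_upwards [h1] with p hp
  refine lt_of_le_of_lt ?_ hp
  have e : GamS p.1 p.2 - GamS p0.1 p0.2 = GamS (p.1 - p0.1) p.2 + GamS p0.1 (p.2 - p0.2) := by
    simp
  rw [e]
  exact (map_add_le_add _ _ _).trans (add_le_add (hC _ _) (hC _ _))

theorem ap_GamS (j : Fin 3) (g h : SV) :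
    ap j (GamS g h) = GamS (ap j g) h + GamS g (ap j h) := by
  have key : mulV j (GamS g h) + TriS (mulV j sqMS) g h = GamS (mulV j g) h + GamS g (mulV j h) := by
    ext v
    simp only [add_apply, mulV_apply, GamS_eq, TriS_apply, Tri]
    rw [← integral_const_mul, ← integral_add ((integrable_triI_SV _ _ _ v).const_mul _)
      (integrable_triI_SV _ _ _ v), ← integral_add (integrable_triI_SV _ _ _ v)
      (integrable_triI_SV _ _ _ v)]
    congr 1; funext q
    simp only [triI, mulV_apply]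
    linear_combination (-(ker (v - q.1) q.2 * sqMS q.1 * g (pw v q.1 q.2) * h (pv v q.1 q.2))) *
      inv_coord j v q.1 q.2
  have h2 : TriS (dV j sqMS) g h = (-1 / 2 : ℝ) • TriS (mulV j sqMS) g h := by
    ext v
    rw [dV_sqMS]
    exact Tri_smul_weight _ _ _ _ v
  have h3 := dV_TriS j sqMS g h
  rw [h2, ← GamS_eq, ← GamS_eq, ← GamS_eq] at h3
  simp only [ap, sub_apply, smul_apply, map_sub, map_smul,
    LinearMap.sub_apply, LinearMap.smul_apply]
  rw [h3, eq_sub_of_add_eq key]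
  module

/-- the symmetrised operator on Schwartz space -/
def GsB : SV →ₗ[ℝ] SV →ₗ[ℝ] SV := GamS + GamS.flip

lemma GsB_eq (g h : SV) : GsB g h = GamS g h + GamS h g := rfl

@[simp] lemma GsB_apply (g h : SV) (v : E) : GsB g h v = Gs g h v := by
  simp [GsB_eq, Gs]

lemma GsB_comm (g h : SV) : GsB g h = GsB h g := by rw [GsB_eq, GsB_eq, add_comm]

theorem continuous_GsB : Continuous fun p : SV × SV => GsB p.1 p.2 :=
  continuous_GamS.add (continuous_GamS.comp continuous_swap)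

theorem ap_GsB (j : Fin 3) (g h : SV) : ap j (GsB g h) = GsB (ap j g) h + GsB g (ap j h) := by
  simp only [GsB_eq, map_add, ap_GamS]; abel

/-- the symmetrised operator with a fixed first argument, as a continuous linear map -/
def GsS (g : SV) : SV →L[ℝ] SV where
  toLinearMap := GsB g
  cont := continuous_GsB.comp (Continuous.prodMk_right g)

@[simp] lemma GsS_eq (g h : SV) : GsS g h = GsB g h := rfl

/-- the linearised operator on Schwartz space -/
def LS : SV →L[ℝ] SV := -GsS sqMS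

lemma LS_eq (f : SV) : LS f = -GsB sqMS f := rfl

@[simp] lemma LS_apply (f : SV) (v : E) : LS f v = Lop f v := by
  simp [LS_eq, Lop, coe_sqMS]

lemma ip_GsB (g h f : SV) : ip (GsB g h) f = ∫ v, Gs g h v * f v := by simp [ip_def]

lemma ip_LS (g f : SV) : ip (LS g) f = ∫ v, Lop g v * f v := by simp [ip_def]

theorem ip_LS_self (f : SV) : ip (LS f) f = Dis f := by
  rw [ip_LS, Dis_eq (nice_SV 10 f)]

theorem neg_ip_GsB_sqMS (f : SV) : -ip (GsB sqMS f) f = Dis f := by
  rw [← ip_LS_self, LS_eq]; simp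

theorem ip_LS_symm (g f : SV) : ip (LS g) f = ip g (LS f) := by
  rw [ip_comm g, ip_LS, ip_LS, integral_Lop_symm (nice_SV 10 g) (nice_SV 10 f)]

theorem GamS_sqMS : GamS sqMS sqMS = 0 := by
  ext v; simp [coe_sqMS, Gam_sM_sM]

theorem ip_GsB_inv (g h f : SV) {φ : E → ℝ} (hf : ∀ v, f v = φ v * sM v)
    (hφ : ∀ v w (o : S2), φ (pv v w o) + φ (pw v w o) = φ v + φ w) : ip (GsB g h) f = 0 := by
  have e : (f : E → ℝ) = fun v => φ v * sM v := funext hf
  rw [ip_GsB]
  simp only [hf]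
  exact integral_Gs_mul_inv (nice_SV 10 g) (nice_SV 10 h) (e ▸ nice_SV 10 f) hφ

theorem LS_inv (f : SV) {φ : E → ℝ} (hf : ∀ v, f v = φ v * sM v)
    (hφ : ∀ v w (o : S2), φ (pv v w o) + φ (pw v w o) = φ v + φ w) : LS f = 0 := by
  have e : (f : E → ℝ) = fun v => φ v * sM v := funext hf
  ext v
  rw [LS_apply, e]
  exact Lop_inv (e ▸ nice_SV 10 f) hφ v

theorem ip_GsB_sqMS (g h : SV) : ip (GsB g h) sqMS = 0 :=
  ip_GsB_inv g h _ (φ := fun _ => 1) (fun v => by simp [sqM_eq]) fun _ _ _ => rfl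

theorem ip_GsB_mulV (g h : SV) (i : Fin 3) : ip (GsB g h) (mulV i sqMS) = 0 :=
  ip_GsB_inv g h _ (φ := fun v => v i) (fun v => by simp [sqM_eq]) (inv_coord i)

theorem ip_GsB_energy (g h f : SV) (c : ℝ) (hf : ∀ v, f v = (‖v‖ ^ 2 - c) * sqM v) :
    ip (GsB g h) f = 0 :=
  ip_GsB_inv g h _ (φ := fun v => ‖v‖ ^ 2 - c) hf fun v w o => by linarith [energy v w o]

theorem LS_sqMS : LS sqMS = 0 :=
  LS_inv _ (φ := fun _ => 1) (fun v => by simp [sqM_eq]) fun _ _ _ => rfl

theorem LS_mulV (i : Fin 3) : LS (mulV i sqMS) = 0 :=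
  LS_inv _ (φ := fun v => v i) (fun v => by simp [sqM_eq]) (inv_coord i)

theorem LS_energy (f : SV) (c : ℝ) (hf : ∀ v, f v = (‖v‖ ^ 2 - c) * sqM v) : LS f = 0 :=
  LS_inv _ (φ := fun v => ‖v‖ ^ 2 - c) hf fun v w o => by linarith [energy v w o]

end Pool.Agent.MP_187b32_an.Coll
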