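import Pool.Agent.MP_187b32_an.Coll.Geom

/-!
The change of variables from sigma to omega on the sphere.
-/

open MeasureTheory Real Set
open scoped ENNReal RealInnerProductSpace

noncomputable section

namespace Pool.Agent.MP_187b32_an.Coll

/-- the homogeneous extension of omega to sigma -/
def psi (e x : E) : E := ‖x‖ • e - (2 * ⟪e, x⟫ * ‖x‖⁻¹) • x

/-- its derivative -/
def dpsi (e n : E) : E →L[ℝ] E :=
  (innerSL ℝ n).smulRight e - (2 : ℝ) • (innerSL ℝ e).smulRight n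
    + (2 * ⟪e, n⟫) • (innerSL ℝ n).smulRight n - (2 * ⟪e, n⟫) • ContinuousLinearMap.id ℝ E

lemma det_dpsi {e n : E} (he : ‖e‖ = 1) (hn : ‖n‖ = 1) : (dpsi e n).det = -4 * ⟪e, n⟫ := by
  have hE : e 0 ^ 2 + e 1 ^ 2 + e 2 ^ 2 = 1 := by
    have := EuclideanSpace.real_norm_sq_eq e
    rw [he, Fin.sum_univ_three] at this
    linarith
  have hN : n 0 ^ 2 + n 1 ^ 2 + n 2 ^ 2 = 1 := by
    have := EuclideanSpace.real_norm_sq_eq n
    rw [hn, Fin.sum_univ_three] at this
    linarith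
  have ht : ⟪e, n⟫ = e 0 * n 0 + e 1 * n 1 + e 2 * n 2 := by
    simp [PiLp.inner_apply, Fin.sum_univ_three]; ring
  have hM : ∀ i j, LinearMap.toMatrix (EuclideanSpace.basisFun (Fin 3) ℝ).toBasis
      (EuclideanSpace.basisFun (Fin 3) ℝ).toBasis (dpsi e n : E →ₗ[ℝ] E) i j =
      n j * e i - 2 * (e j * n i) + 2 * ⟪e, n⟫ * (n j * n i)
        - 2 * ⟪e, n⟫ * if i = j then 1 else 0 := by
    intro i j
    rw [LinearMap.toMatrix_apply]
    simp [dpsi, EuclideanSpace.inner_single_right]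
  rw [ContinuousLinearMap.det, ← LinearMap.det_toMatrix (EuclideanSpace.basisFun (Fin 3) ℝ).toBasis,
    Matrix.det_fin_three]
  simp only [hM]
  rw [ht]
  simp only [Fin.isValue, Fin.reduceEq, ↓reduceIte]
  linear_combination (-2 * (e 0 * n 0 + e 1 * n 1 + e 2 * n 2)) *
    (-4 * (e 0 * n 0 + e 1 * n 1 + e 2 * n 2) ^ 2 + 2 * (e 0 ^ 2 + e 1 ^ 2 + e 2 ^ 2)) * hN +
    (-4 * (e 0 * n 0 + e 1 * n 1 + e 2 * n 2)) * hE

lemma hasFDerivAt_psi (e : E) {x : E} (hx : x ≠ 0) :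
    HasFDerivAt (psi e) (dpsi e (‖x‖⁻¹ • x)) x := by
  have h0 : 0 < ‖x‖ := norm_pos_iff.2 hx
  have hn : HasFDerivAt (fun y : E => ‖y‖) (innerSL ℝ (‖x‖⁻¹ • x)) x := by
    have h1 := (hasStrictFDerivAt_norm_sq x).hasFDerivAt.sqrt (by positivity)
    simp only [Real.sqrt_sq (norm_nonneg _)] at h1
    refine h1.congr_fderiv ?_
    ext h
    simp
    field_simp
  have hi := (hasDerivAt_inv h0.ne').comp_hasFDerivAt x hn
  have h2 := (hn.smul_const e).sub
    (((((innerSL ℝ e).hasFDerivAt (x := x)).const_mul 2).mul hi).smul (hasFDerivAt_id x))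
  refine HasFDerivAt.congr_fderiv h2 ?_
  refine ContinuousLinearMap.ext fun h => ?_
  simp [dpsi, inner_smul_right, smul_smul, add_smul]
  match_scalars <;> (field_simp; try ring)

lemma norm_psi {e : E} (he : ‖e‖ = 1) (x : E) : ‖psi e x‖ = ‖x‖ := by
  rcases eq_or_ne x 0 with rfl | hx
  · simp [psi]
  have h0 : 0 < ‖x‖ := norm_pos_iff.2 hx
  refine (sq_eq_sq₀ (norm_nonneg _) (norm_nonneg _)).1 ?_
  rw [psi, norm_sub_sq_real, inner_smul_left, inner_smul_right, norm_smul, norm_smul, he]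
  simp only [conj_trivial, Real.norm_eq_abs, mul_pow, sq_abs]
  field_simp; ring

lemma psi_injOn {e : E} (he : ‖e‖ = 1) : InjOn (psi e) {x | 0 < ⟪e, x⟫} := by
  intro x hx y hy h
  have hx' : 0 < ⟪e, x⟫ := hx
  have hy' : 0 < ⟪e, y⟫ := hy
  have h0 : 0 < ‖x‖ := norm_pos_iff.2 (by rintro rfl; simp at hx')
  have h1 : ‖x‖ = ‖y‖ := by rw [← norm_psi he x, h, norm_psi he]
  rw [psi, psi, ← h1, sub_right_inj] at h
  have h2 := congrArg (fun z => ⟪e, z⟫) h
  simp only [inner_smul_right] at h2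
  have h3 : ⟪e, x⟫ = ⟪e, y⟫ := by
    refine (sq_eq_sq₀ hx'.le hy'.le).1 ?_
    field_simp at h2
    linarith
  rw [← h3] at h
  exact smul_right_injective E (by positivity) h

lemma psi_surj {e : E} (he : ‖e‖ = 1) {y : E} (hy : y ∉ (ℝ ∙ e)) :
    ∃ x, 0 < ⟪e, x⟫ ∧ psi e x = y := by
  have h0 : 0 < ‖y‖ := norm_pos_iff.2 (by rintro rfl; exact hy (zero_mem _))
  set d := ‖y‖ • e - y with hd
  have hd0 : 0 < ‖d‖ := norm_pos_iff.2 fun h => hy (by
    rw [← sub_eq_zero.1 h]; exact Submodule.smul_mem _ _ (Submodule.mem_span_singleton_self e))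
  have h1 : ‖d‖ ^ 2 = 2 * ‖y‖ * ⟪e, d⟫ := by
    rw [hd, norm_sub_sq_real, inner_sub_right, inner_smul_left, inner_smul_right, norm_smul,
      real_inner_self_eq_norm_sq, he]
    simp; ring
  have h2 : ⟪e, (‖y‖ / ‖d‖) • d⟫ = ‖d‖ / 2 := by
    rw [inner_smul_right]; field_simp; linarith
  have h3 : ‖(‖y‖ / ‖d‖) • d‖ = ‖y‖ := by
    rw [norm_smul, Real.norm_of_nonneg (by positivity)]; field_simp
  refine ⟨(‖y‖ / ‖d‖) • d, by rw [h2]; positivity, ?_⟩
  rw [psi, h2, h3, smul_smul, show 2 * (‖d‖ / 2) * ‖y‖⁻¹ * (‖y‖ / ‖d‖) = 1 by field_simp, one_smul,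
    hd, sub_sub_cancel]

/-- sigma to omega -/
theorem lintegral_sigma_omega {e : E} (he : ‖e‖ = 1) (F : E → ℝ≥0∞) (hF : Measurable F) :
    ∫⁻ s, F s ∂sph = ∫⁻ o, ENNReal.ofReal (2 * |⟪e, (o : E)⟫|) *
      F (e - (2 * ⟪e, (o : E)⟫) • (o : E)) ∂sph := by
  set G : E → ℝ≥0∞ := fun o => ENNReal.ofReal (2 * |⟪e, o⟫|) * F (e - (2 * ⟪e, o⟫) • o) with hG
  have hGm : Measurable G := Measurable.mul (by fun_prop) (hF.comp (by fun_prop))
  have hGm' : Measurable fun x : E => G (‖x‖⁻¹ • x) := hGm.comp (by fun_prop)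
  rw [lintegral_sph_eq_ball F hF, lintegral_sph_eq_ball G hGm]
  congr 1
  set s : Set E := Metric.ball 0 1 ∩ {x | 0 < ⟪e, x⟫} with hs
  have hsm : MeasurableSet s :=
    measurableSet_ball.inter (measurableSet_lt (by fun_prop) (by fun_prop))
  have hne : ∀ x ∈ s, x ≠ 0 := by
    rintro x ⟨-, hx⟩ rfl
    simp at hx
  have him : (psi e '' s : Set E) =ᵐ[volume] (Metric.ball 0 1 : Set E) := by
    have hnull : volume ((ℝ ∙ e : Submodule ℝ E) : Set E) = 0 := by
      refine Measure.addHaar_submodule _ _ fun h => ?_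
      have h1 := finrank_span_singleton (K := ℝ) (show e ≠ 0 by rintro rfl; simp at he)
      rw [h] at h1
      simp at h1
    filter_upwards [compl_mem_ae_iff.2 hnull] with y hy
    refine propext ⟨?_, fun h => ?_⟩
    · rintro ⟨x, hx, rfl⟩
      change psi e x ∈ Metric.ball (0 : E) 1
      rw [mem_ball_zero_iff, norm_psi he]
      exact mem_ball_zero_iff.1 hx.1
    · obtain ⟨x, hx, rfl⟩ := psi_surj he hy
      refine ⟨x, ⟨?_, hx⟩, rfl⟩
      rw [mem_ball_zero_iff, ← norm_psi he]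
      exact mem_ball_zero_iff.1 h
  rw [← setLIntegral_congr him, lintegral_image_eq_lintegral_abs_det_fderiv_mul volume hsm
    (fun x hx => (hasFDerivAt_psi e (hne x hx)).hasFDerivWithinAt)
    ((psi_injOn he).mono inter_subset_right)]
  have h1 : ∀ x ∈ s, ENNReal.ofReal |(dpsi e (‖x‖⁻¹ • x)).det| * F (‖psi e x‖⁻¹ • psi e x)
      = 2 * G (‖x‖⁻¹ • x) := by
    intro x hx
    have h0 : 0 < ‖x‖ := norm_pos_iff.2 (hne x hx)
    have e2 : ∀ a : ℝ, 2 * ENNReal.ofReal a = ENNReal.ofReal (2 * a) := fun a => by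
      rw [ENNReal.ofReal_mul (by norm_num)]; simp
    rw [det_dpsi he (by simp [norm_smul, h0.ne']), norm_psi he, hG, ← mul_assoc, e2, abs_mul]
    congr 2
    · norm_num; ring
    · rw [psi, inner_smul_right]
      match_scalars <;> field_simp
  rw [setLIntegral_congr_fun hsm h1, lintegral_const_mul _ hGm', two_mul,
    ← lintegral_indicator hsm, ← lintegral_indicator measurableSet_ball]
  nth_rewrite 2 [← lintegral_neg_eq_self]
  rw [← lintegral_add_left (hGm'.indicator hsm)]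
  refine lintegral_congr fun x => ?_
  have hev : G (‖-x‖⁻¹ • -x) = G (‖x‖⁻¹ • x) := by simp [hG]
  by_cases hb : x ∈ Metric.ball (0 : E) 1
  · rw [indicator_of_mem hb]
    rcases lt_trichotomy 0 ⟪e, x⟫ with h | h | h
    · rw [indicator_of_mem (show x ∈ s from ⟨hb, h⟩), indicator_of_notMem, add_zero]
      rintro ⟨-, h'⟩
      simp only [mem_ofPred_eq, inner_neg_right] at h'
      linarith
    · rw [indicator_of_notMem, indicator_of_notMem]
      · simp [hG, inner_smul_right, ← h]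
      · rintro ⟨-, h'⟩
        simp [← h] at h'
      · rintro ⟨-, h'⟩
        simp [← h] at h'
    · rw [indicator_of_notMem, indicator_of_mem (show -x ∈ s from
        ⟨by simpa using hb, by simpa using h⟩), zero_add, hev]
      rintro ⟨-, h'⟩
      exact lt_asymm h h'
  · rw [indicator_of_notMem hb, indicator_of_notMem fun h => hb h.1,
      indicator_of_notMem fun h => hb (by simpa using h.1), add_zero]

end Pool.Agent.MP_187b32_an.Coll
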