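import Pool.Agent.MP_187b32_an.Coll.SigOm
import Pool.Agent.MP_187b32_an.Coll.Bound
import Pool.Agent.MP_187b32_an.Stmt

/-!
The collision operator of the statement (sigma form) equals the omega form.
-/

open MeasureTheory Real Set
open scoped ENNReal RealInnerProductSpace

noncomputable section

namespace Pool.Agent.MP_187b32_an.Coll

open Stmt

open Classical in
/-- direction of a vector -/
def dirE (u : E) : E := if u = 0 then EuclideanSpace.single 0 1 else ‖u‖⁻¹ • u

lemma norm_dirE (u : E) : ‖dirE u‖ = 1 := by
  unfold dirE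
  split_ifs with h
  · simp
  · simp [norm_smul, h]

@[fun_prop] lemma measurable_dirE : Measurable dirE :=
  Measurable.ite (measurableSet_singleton 0) measurable_const (by fun_prop)

/-- sigma as a function of v_* and omega -/
def sgm (v : E) (q : E × S2) : E × E :=
  (q.1, dirE (v - q.1) - (2 * ⟪dirE (v - q.1), (q.2 : E)⟫) • (q.2 : E))

/-- the Jacobian -/
def jac (v : E) (q : E × S2) : ℝ := 2 * |⟪dirE (v - q.1), (q.2 : E)⟫|

lemma measurable_sgm (v : E) : Measurable (sgm v) := by unfold sgm; fun_prop

lemma measurable_jac (v : E) : Measurable (jac v) := by unfold jac; fun_prop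

lemma map_sgm (v : E) : mu2.map (fun q : E × S2 => (q.1, (q.2 : E))) =
    (mu2.withDensity fun q => ENNReal.ofReal (jac v q)).map (sgm v) := by
  have hi : Measurable fun q : E × S2 => (q.1, (q.2 : E)) := by fun_prop
  ext t ht
  have hF : Measurable (t.indicator (1 : E × E → ℝ≥0∞)) := measurable_one.indicator ht
  rw [← lintegral_indicator_one ht, ← lintegral_indicator_one ht, lintegral_map hF hi,
    lintegral_map hF (measurable_sgm v), lintegral_withDensity_eq_lintegral_mul _
      (measurable_jac v).ennreal_ofReal (g := fun q => t.indicator 1 (sgm v q))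
      (hF.comp (measurable_sgm v)),
    lintegral_mu2 (fun q => t.indicator 1 (q.1, (q.2 : E))) (hF.comp hi),
    lintegral_mu2 ((fun x => ENNReal.ofReal (jac v x)) * fun q => t.indicator 1 (sgm v q))
      ((measurable_jac v).ennreal_ofReal.mul (hF.comp (measurable_sgm v)))]
  exact lintegral_congr fun w => lintegral_sigma_omega (norm_dirE (v - w))
    (fun s => t.indicator 1 (w, s)) (hF.comp (by fun_prop))

/-- the sigma integrand as a function on pairs of vectors -/
def cI (f : E → ℝ) (v : E) (q : E × E) : ℝ :=
  (f (wPost v q.1 q.2) * f (vPost v q.1 q.2) - f q.1 * f v) * B8 ‖v - q.1‖ (cosTh v q.1 q.2)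

lemma measurable_cI {f : E → ℝ} (hf : Measurable f) (v : E) : Measurable (cI f v) := by
  unfold cI B8 cosTh wPost vPost
  fun_prop

lemma jac_mul_cI (G : E → ℝ) (v : E) (q : E × S2) :
    jac v q * cI (fun x => sM x * G x) v (sgm v q) = sM v * triI sM G G v q := by
  obtain ⟨w, o⟩ := q
  rcases eq_or_ne (v - w) 0 with hu | hu
  · simp [cI, sgm, triI, ker, B8, hu]
  have h0 : 0 < ‖v - w‖ := norm_pos_iff.2 hu
  have hd : dirE (v - w) = ‖v - w‖⁻¹ • (v - w) := if_neg hu
  have e1 : vPost v w (sgm v (w, o)).2 = pv v w o := by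
    simp only [vPost, sgm, pv, hd, inner_smul_left, conj_trivial]
    match_scalars <;> field_simp <;> ring
  have e2 : wPost v w (sgm v (w, o)).2 = pw v w o := by
    simp only [wPost, sgm, pw, hd, inner_smul_left, conj_trivial]
    match_scalars <;> field_simp <;> ring
  have e3 : (1 - cosTh v w (sgm v (w, o)).2) / 2 = (|⟪v - w, (o : E)⟫| / ‖v - w‖) ^ (2 : ℝ) := by
    rw [cosTh, e1, e2, pv_sub_pw, inner_sub_left _ _ (v - w), inner_smul_left,
      real_inner_self_eq_norm_sq, real_inner_comm (v - w), Real.rpow_two, div_pow, sq_abs]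
    simp only [conj_trivial]
    field_simp; ring
  have e4 : jac v (w, o) * B8 ‖v - w‖ (cosTh v w (sgm v (w, o)).2) = ker (v - w) o := by
    rw [B8, e3, ← Real.rpow_mul (by positivity), jac, hd, inner_smul_left, ker, abs_mul]
    simp only [conj_trivial, abs_inv, abs_norm]
    rcases (abs_nonneg ⟪v - w, (o : E)⟫).eq_or_lt with h | h
    · rw [← h]; simp
    rw [Real.div_rpow h.le h0.le, show (-(3 / 2) : ℝ) = 2 * -(5 / 4) + 1 by norm_num,
      Real.rpow_add_one h.ne', show (19 / 2 : ℝ) = (7 : ℕ) - 2 * -(5 / 4) by norm_num,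
      Real.rpow_sub h0, Real.rpow_natCast]
    field_simp
  have e5 := sM_pv_mul v w o
  have e6 : (sgm v (w, o)).1 = w := rfl
  simp only [cI, triI, e6, e1, e2]
  rw [← e4]
  linear_combination jac v (w, o) * B8 ‖v - w‖ (cosTh v w (sgm v (w, o)).2) *
    G (pw v w o) * G (pv v w o) * e5

/-- the operator of the statement in terms of Gamma -/
theorem sigma_eq {p : ℕ} {K : ℝ} {G : E → ℝ} (hG : Nice p K G) (v : E) :
    Integrable (collInt B8 (fun x => sM x * G x) v) collMeas ∧
      Q B8 (fun x => sM x * G x) v = sM v * Gam G G v := by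
  have hi : Measurable fun q : E × S2 => (q.1, (q.2 : E)) := by fun_prop
  have hm := measurable_cI (measurable_sM.mul hG.measurable) v
  have hj := measurable_jac v
  have hj0 : ∀ q, 0 ≤ jac v q := fun q => by unfold jac; positivity
  have e : ∀ q, (ENNReal.ofReal (jac v q)).toReal • cI (sM * G) v (sgm v q)
      = sM v * triI sM G G v q := fun q => by
    rw [ENNReal.toReal_ofReal (hj0 q), smul_eq_mul]; exact jac_mul_cI G v q
  constructor
  · change Integrable (cI (sM * G) v ∘ fun q : E × S2 => (q.1, (q.2 : E))) mu2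
    rw [← integrable_map_measure hm.aestronglyMeasurable hi.aemeasurable, map_sgm v,
      integrable_map_measure hm.aestronglyMeasurable (measurable_sgm v).aemeasurable,
      integrable_withDensity_iff_integrable_smul' hj.ennreal_ofReal
        (ae_of_all _ fun _ => ENNReal.ofReal_lt_top)]
    exact ((integrable_gamI hG hG v).const_mul (sM v)).congr (ae_of_all _ fun q => (e q).symm)
  · change ∫ q : E × S2, cI (sM * G) v (q.1, (q.2 : E)) ∂mu2 = _
    rw [← integral_map hi.aemeasurable hm.aestronglyMeasurable, map_sgm v,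
      integral_map (measurable_sgm v).aemeasurable hm.aestronglyMeasurable,
      integral_withDensity_eq_integral_toReal_smul hj.ennreal_ofReal
        (ae_of_all _ fun _ => ENNReal.ofReal_lt_top)]
    simp only [e]
    exact integral_const_mul _ _

end Pool.Agent.MP_187b32_an.Coll
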